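import Pool.Agent.H459R3.NS.Ser

/-!
Decoupling of functions of lacunary phases on the period cell.
-/

set_option autoImplicit false

open MeasureTheory Set Filter Topology
open scoped ContDiff ComplexConjugate NNReal

namespace Pool.Agent.Run7.h980.WS

open H459R3.NS

/-- The functional `x ↦ k · x`. -/
noncomputable def phL (k : K3) : StrongDual ℝ V :=
  LinearMap.toContinuousLinearMap
    (∑ j : Fin 3, (k j : ℝ) • LinearMap.proj (R := ℝ) (φ := fun _ => ℝ) j)

theorem phL_apply (k : K3) (x : V) : phL k x = ph k x := by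
  have : phL k x = (∑ j : Fin 3, (k j : ℝ) • LinearMap.proj (R := ℝ) (φ := fun _ => ℝ) j :
    V →ₗ[ℝ] ℝ) x := rfl
  rw [this]
  simp only [ph, LinearMap.sum_apply, LinearMap.smul_apply, LinearMap.proj_apply, smul_eq_mul]

theorem le_norm_phL (k : K3) (j : Fin 3) : |(k j : ℝ)| ≤ ‖phL k‖ := by
  have h1 := (phL k).le_opNorm (Pi.single j (1 : ℝ))
  have h2 : ‖(Pi.single j (1 : ℝ) : V)‖ = 1 := by
    rw [Pi.norm_single]
    norm_num
  rw [h2, mul_one, phL_apply, ph_single, mul_one, Real.norm_eq_abs] at h1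
  exact h1

/-- Riemann-Lebesgue on the period cell. -/
theorem rlC {m : ℕ → K3} (j : Fin 3) (hm : Tendsto (fun N => |(m N j : ℝ)|) atTop atTop)
    (f : V → ℂ) :
    Tendsto (fun N => ∫ x in cube, ee (m N) x * f x) atTop (𝓝 0) := by
  have hmeas : MeasurableSet cube := measurableSet_Icc
  have ht : Tendsto (fun N : ℕ => phL (-(m N))) atTop (cocompact (StrongDual ℝ V)) := by
    rw [← Metric.cobounded_eq_cocompact, ← tendsto_norm_atTop_iff_cobounded]
    refine tendsto_atTop_mono (fun N => ?_) hm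
    refine le_trans (le_of_eq ?_) (le_norm_phL (-(m N)) j)
    rw [Pi.neg_apply]
    push_cast
    rw [abs_neg]
  have h := (tendsto_integral_exp_smul_cocompact (cube.indicator f)
    (volume : Measure V)).comp ht
  refine h.congr fun N => ?_
  show (∫ v : V, Real.fourierChar (-(phL (-(m N)) v)) • cube.indicator f v) = _
  rw [← integral_indicator hmeas]
  congr 1
  funext v
  by_cases hv : v ∈ cube
  · rw [indicator_of_mem hv, indicator_of_mem hv, phL_apply, ph_neg, neg_neg, Circle.smul_def,
      Real.fourierChar_apply, smul_eq_mul, ee]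
    congr 2
    push_cast
    ring
  · rw [indicator_of_notMem hv, indicator_of_notMem hv, smul_zero]

section
variable {I : Type*} [Fintype I]

/-- The frequencies. -/
def fq (a : I → ℕ) (n : I → K3) (N : ℕ) (i : I) : K3 := N ^ a i • n i

/-- The point of the torus. -/
noncomputable def tp (y : I → ℝ) : UnitAddTorus I := fun i => (y i : UnitAddCircle)

theorem tp_continuous : Continuous (tp (I := I)) := by
  unfold tp
  exact continuous_pi fun i => (AddCircle.continuous_mk' 1).comp (continuous_apply i)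

/-- The phases. -/
noncomputable def pz (a : I → ℕ) (n : I → K3) (N : ℕ) (x : V) : I → ℝ := fun i =>
  ph (fq a n N i) x

theorem pz_continuous (a : I → ℕ) (n : I → K3) (N : ℕ) : Continuous (pz a n N) :=
  continuous_pi fun _ => (ph_contDiff _ (n := 0)).continuous

theorem mF_tp (k : I → ℤ) (y : I → ℝ) :
    UnitAddTorus.mFourier k (tp y)
      = Complex.exp (2 * Real.pi * Complex.I * ((∑ i, (k i : ℝ) * y i : ℝ) : ℂ)) := by
  have h : UnitAddTorus.mFourier k (tp y) = ∏ i, fourier (k i) (tp y i) := rfl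
  rw [h]
  push_cast
  rw [Finset.mul_sum, Complex.exp_sum]
  refine Finset.prod_congr rfl fun i _ => ?_
  have : tp y i = (y i : UnitAddCircle) := rfl
  rw [this, fourier_coe_apply]
  congr 1
  push_cast
  ring

theorem mF_pz (a : I → ℕ) (n : I → K3) (k : I → ℤ) (N : ℕ) (x : V) :
    UnitAddTorus.mFourier k (tp (pz a n N x)) = ee (∑ i, (k i * (N : ℤ) ^ a i) • n i) x := by
  rw [mF_tp, ee]
  congr 3
  unfold pz ph fq
  simp only [Finset.sum_apply, Pi.smul_apply, nsmul_eq_mul, zsmul_eq_mul]
  push_cast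
  simp only [Finset.sum_mul, Finset.mul_sum]
  rw [Finset.sum_comm]
  refine Finset.sum_congr rfl fun j _ => Finset.sum_congr rfl fun i _ => ?_
  simp
  ring

theorem tends_freq {a : I → ℕ} {n : I → K3} (ha : Function.Injective a) (ha1 : ∀ i, 1 ≤ a i)
    (hn : ∀ i, n i ≠ 0) {k : I → ℤ} (hk : k ≠ 0) :
    ∃ j : Fin 3, Tendsto (fun N : ℕ => |((∑ i, (k i * (N : ℤ) ^ a i) • n i : K3) j : ℝ)|) atTop
      atTop := by
  classical
  obtain ⟨i₀, hi₀⟩ : ∃ i, k i ≠ 0 := by
    by_contra h
    push Not at h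
    exact hk (funext h)
  obtain ⟨j, hj⟩ : ∃ j, n i₀ j ≠ 0 := by
    by_contra h
    push Not at h
    exact hn i₀ (funext h)
  refine ⟨j, ?_⟩
  set Q : Polynomial ℝ := ∑ i, Polynomial.monomial (a i) ((k i * n i j : ℤ) : ℝ) with hQ
  have hc : Q.coeff (a i₀) = ((k i₀ * n i₀ j : ℤ) : ℝ) := by
    rw [hQ, Polynomial.finsetSum_coeff, Finset.sum_eq_single i₀]
    · rw [Polynomial.coeff_monomial, if_pos rfl]
    · intro i _ hi
      rw [Polynomial.coeff_monomial, if_neg]
      intro h
      exact hi (ha h)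
    · intro h
      exact absurd (Finset.mem_univ _) h
  have hc0 : Q.coeff (a i₀) ≠ 0 := by
    rw [hc]
    exact_mod_cast mul_ne_zero hi₀ hj
  have hd : 0 < Q.degree := by
    refine lt_of_lt_of_le ?_ (Polynomial.le_degree_of_ne_zero hc0)
    exact_mod_cast ha1 i₀
  have h := (Q.abs_tendsto_atTop hd).comp tendsto_natCast_atTop_atTop
  refine h.congr fun N => ?_
  show |Q.eval (N : ℝ)| = _
  congr 1
  rw [hQ, Polynomial.eval_finsetSum]
  simp only [Finset.sum_apply, Pi.smul_apply, zsmul_eq_mul]
  push_cast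
  refine Finset.sum_congr rfl fun i _ => ?_
  rw [Polynomial.eval_monomial]
  simp
  ring

/-- The property to be proved for all continuous functions on the torus. -/
def Dc (a : I → ℕ) (n : I → K3) (f : V → ℂ) (G : C(UnitAddTorus I, ℂ)) : Prop :=
  Tendsto (fun N : ℕ => ∫ x in cube, f x * G (tp (pz a n N x))) atTop
    (𝓝 ((∫ x in cube, f x) * ∫ y in Icc (0 : I → ℝ) 1, G (tp y)))

theorem exp_int (k : ℤ) : ∫ t in Icc (0 : ℝ) 1,
    Complex.exp (2 * Real.pi * Complex.I * ((k * t : ℝ) : ℂ)) = if k = 0 then 1 else 0 := by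
  rw [integral_Icc_eq_integral_Ioc, ← intervalIntegral.integral_of_le zero_le_one]
  by_cases hk : k = 0
  · simp [hk]
  · rw [if_neg hk]
    have e : ∀ t : ℝ, Complex.exp (2 * Real.pi * Complex.I * ((k * t : ℝ) : ℂ))
        = Complex.exp ((2 * Real.pi * Complex.I * k) * t) := by
      intro t
      congr 1
      push_cast
      ring
    simp_rw [e]
    have h0 : (2 * Real.pi * Complex.I * k : ℂ) ≠ 0 := by
      have := Real.pi_ne_zero
      have h2 : (k : ℂ) ≠ 0 := by exact_mod_cast hk
      simp [this, h2, Complex.I_ne_zero]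
    rw [integral_exp_mul_complex h0]
    have h1 : Complex.exp (2 * Real.pi * Complex.I * k * ((1 : ℝ) : ℂ)) = 1 := by
      rw [Complex.exp_eq_one_iff]
      exact ⟨k, by push_cast; ring⟩
    rw [h1]
    simp

theorem mF_int (k : I → ℤ) :
    ∫ y in Icc (0 : I → ℝ) 1, UnitAddTorus.mFourier k (tp y) = if k = 0 then 1 else 0 := by
  classical
  have e : ∀ y : I → ℝ, UnitAddTorus.mFourier k (tp y)
      = ∏ i, Complex.exp (2 * Real.pi * Complex.I * ((k i * y i : ℝ) : ℂ)) := by
    intro y
    rw [mF_tp, ← Complex.exp_sum]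
    congr 1
    push_cast
    rw [Finset.mul_sum]
  simp_rw [e]
  rw [← Set.pi_univ_Icc, volume_pi, Measure.restrict_pi_pi]
  have h := integral_fintype_prod_eq_prod (𝕜 := ℂ) (ι := I) (E := fun _ => ℝ)
    (μ := fun i => (volume : Measure ℝ).restrict (Icc ((0 : I → ℝ) i) ((1 : I → ℝ) i)))
    (f := fun i t => Complex.exp (2 * Real.pi * Complex.I * ((k i * t : ℝ) : ℂ)))
  rw [h]
  have e2 : ∀ i, (∫ t in Icc ((0 : I → ℝ) i) ((1 : I → ℝ) i),
      Complex.exp (2 * Real.pi * Complex.I * ((k i * t : ℝ) : ℂ))) = if k i = 0 then 1 else 0 :=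
    fun i => exp_int (k i)
  simp_rw [e2]
  by_cases hk : k = 0
  · simp [hk]
  · rw [if_neg hk]
    obtain ⟨i₀, hi₀⟩ : ∃ i, k i ≠ 0 := by
      by_contra h
      push Not at h
      exact hk (funext h)
    exact Finset.prod_eq_zero (Finset.mem_univ i₀) (if_neg hi₀)

theorem icc_finite : IsFiniteMeasure ((volume : Measure (I → ℝ)).restrict (Icc 0 1)) :=
  ⟨by
    rw [Measure.restrict_apply_univ]
    exact isCompact_Icc.measure_lt_top⟩

theorem volume_icc : volume (Icc (0 : I → ℝ) 1) = 1 := by
  rw [Real.volume_Icc_pi]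
  simp

theorem intOn_icc {F : (I → ℝ) → ℂ} (hF : Continuous F) :
    IntegrableOn F (Icc (0 : I → ℝ) 1) :=
  hF.continuousOn.integrableOn_compact isCompact_Icc

theorem dc_mF {a : I → ℕ} {n : I → K3} (ha : Function.Injective a) (ha1 : ∀ i, 1 ≤ a i)
    (hn : ∀ i, n i ≠ 0) (f : V → ℂ) (k : I → ℤ) :
    Dc a n f (UnitAddTorus.mFourier k) := by
  unfold Dc
  rw [mF_int]
  by_cases hk : k = 0
  · subst hk
    rw [if_pos rfl, mul_one]
    refine tendsto_const_nhds.congr fun N => ?_
    refine setIntegral_congr_fun measurableSet_Icc fun x _ => ?_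
    show f x = f x * UnitAddTorus.mFourier (0 : I → ℤ) (tp (pz a n N x))
    rw [UnitAddTorus.mFourier_zero, ContinuousMap.one_apply, mul_one]
  · rw [if_neg hk, mul_zero]
    obtain ⟨j, hj⟩ := tends_freq ha ha1 hn hk
    refine (rlC j hj f).congr fun N => ?_
    refine setIntegral_congr_fun measurableSet_Icc fun x _ => ?_
    show ee (∑ i, (k i * (N : ℤ) ^ a i) • n i) x * f x
      = f x * UnitAddTorus.mFourier k (tp (pz a n N x))
    rw [mF_pz, mul_comm]

theorem cont_G (G : C(UnitAddTorus I, ℂ)) (a : I → ℕ) (n : I → K3) (N : ℕ) :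
    Continuous fun x => G (tp (pz a n N x)) :=
  G.continuous.comp (tp_continuous.comp (pz_continuous a n N))

theorem int_fG {f : V → ℂ} (hf : Continuous f) (G : C(UnitAddTorus I, ℂ)) (a : I → ℕ)
    (n : I → K3) (N : ℕ) : IntegrableOn (fun x => f x * G (tp (pz a n N x))) cube :=
  integrableOn_cube (hf.mul (cont_G G a n N))

theorem int_G (G : C(UnitAddTorus I, ℂ)) :
    IntegrableOn (fun y => G (tp y)) (Icc (0 : I → ℝ) 1) :=
  intOn_icc (G.continuous.comp tp_continuous)

theorem dc_all {a : I → ℕ} {n : I → K3} (ha : Function.Injective a) (ha1 : ∀ i, 1 ≤ a i)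
    (hn : ∀ i, n i ≠ 0) {f : V → ℂ} (hf : Continuous f) (G : C(UnitAddTorus I, ℂ)) :
    Dc a n f G := by
  -- linear combinations
  have h1 : ∀ G ∈ Submodule.span ℂ (range (UnitAddTorus.mFourier (d := I))), Dc a n f G := by
    intro G hG
    induction hG using Submodule.span_induction with
    | mem G hG =>
      obtain ⟨k, rfl⟩ := hG
      exact dc_mF ha ha1 hn f k
    | zero =>
      unfold Dc
      simp only [ContinuousMap.zero_apply, mul_zero, integral_zero]
      exact tendsto_const_nhds
    | add G G' _ _ h h' =>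
      unfold Dc at h h' ⊢
      have e1 : ∀ N : ℕ, (∫ x in cube, f x * (G + G') (tp (pz a n N x)))
          = (∫ x in cube, f x * G (tp (pz a n N x)))
            + ∫ x in cube, f x * G' (tp (pz a n N x)) := by
        intro N
        rw [← integral_add (int_fG hf G a n N) (int_fG hf G' a n N)]
        refine setIntegral_congr_fun measurableSet_Icc fun x _ => ?_
        simp only [ContinuousMap.add_apply]
        ring
      have e2 : (∫ y in Icc (0 : I → ℝ) 1, (G + G') (tp y))
          = (∫ y in Icc (0 : I → ℝ) 1, G (tp y)) + ∫ y in Icc (0 : I → ℝ) 1, G' (tp y) := by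
        rw [← integral_add (int_G G) (int_G G')]
        rfl
      simp_rw [e1, e2, mul_add]
      exact h.add h'
    | smul c G _ h =>
      unfold Dc at h ⊢
      have e1 : ∀ N : ℕ, (∫ x in cube, f x * (c • G) (tp (pz a n N x)))
          = c * ∫ x in cube, f x * G (tp (pz a n N x)) := by
        intro N
        rw [← integral_const_mul]
        refine setIntegral_congr_fun measurableSet_Icc fun x _ => ?_
        simp only [ContinuousMap.smul_apply, smul_eq_mul]
        ring
      have e2 : (∫ y in Icc (0 : I → ℝ) 1, (c • G) (tp y))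
          = c * ∫ y in Icc (0 : I → ℝ) 1, G (tp y) := by
        rw [← integral_const_mul]
        rfl
      simp_rw [e1, e2]
      have := h.const_mul c
      convert this using 2
      ring
  -- uniform limits
  unfold Dc
  rw [Metric.tendsto_atTop]
  intro ε hε
  set M : ℝ := ∫ x in cube, ‖f x‖ with hM
  have hM0 : 0 ≤ M := integral_nonneg fun _ => norm_nonneg _
  have hcl : G ∈ (Submodule.span ℂ (range (UnitAddTorus.mFourier (d := I)))).topologicalClosure := by
    rw [UnitAddTorus.span_mFourier_closure_eq_top]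
    exact Submodule.mem_top
  have hcl2 : G ∈ closure ((Submodule.span ℂ (range (UnitAddTorus.mFourier (d := I))) :
      Submodule ℂ C(UnitAddTorus I, ℂ)) : Set C(UnitAddTorus I, ℂ)) := hcl
  rw [Metric.mem_closure_iff] at hcl2
  obtain ⟨G', hG', hd⟩ := hcl2 (ε / (4 * (M + 1))) (by positivity)
  have hpt : ∀ t, ‖G t - G' t‖ ≤ ε / (4 * (M + 1)) := by
    intro t
    rw [← dist_eq_norm]
    exact (ContinuousMap.dist_apply_le_dist t).trans hd.le
  obtain ⟨N₀, hN₀⟩ := (Metric.tendsto_atTop.1 (h1 G' hG')) (ε / 4) (by positivity)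
  refine ⟨N₀, fun N hN => ?_⟩
  have a1 : ‖(∫ x in cube, f x * G (tp (pz a n N x))) - ∫ x in cube, f x * G' (tp (pz a n N x))‖
      ≤ ε / (4 * (M + 1)) * M := by
    rw [← integral_sub (int_fG hf G a n N) (int_fG hf G' a n N), hM, ← integral_const_mul]
    refine (norm_integral_le_integral_norm _).trans (integral_mono_of_nonneg
      (Eventually.of_forall fun _ => norm_nonneg _) ((integrableOn_cube hf.norm).const_mul _)
      (Eventually.of_forall fun x => ?_))
    show ‖f x * G (tp (pz a n N x)) - f x * G' (tp (pz a n N x))‖ ≤ _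
    rw [← mul_sub, norm_mul, mul_comm]
    exact mul_le_mul_of_nonneg_right (hpt _) (norm_nonneg _)
  have a2 : ‖(∫ y in Icc (0 : I → ℝ) 1, G (tp y)) - ∫ y in Icc (0 : I → ℝ) 1, G' (tp y)‖
      ≤ ε / (4 * (M + 1)) := by
    rw [← integral_sub (int_G G) (int_G G')]
    have := norm_setIntegral_le_of_norm_le_const (μ := (volume : Measure (I → ℝ)))
      (s := Icc (0 : I → ℝ) 1) (f := fun y => G (tp y) - G' (tp y))
      (C := ε / (4 * (M + 1))) isCompact_Icc.measure_lt_top (fun y _ => hpt (tp y))
    rw [Measure.real, volume_icc] at this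
    simpa using this
  have a3 : ‖∫ x in cube, f x‖ ≤ M := norm_integral_le_integral_norm _
  have a4 := hN₀ N hN
  rw [dist_eq_norm] at a4 ⊢
  set A := ∫ x in cube, f x * G (tp (pz a n N x))
  set A' := ∫ x in cube, f x * G' (tp (pz a n N x))
  set F := ∫ x in cube, f x
  set B := ∫ y in Icc (0 : I → ℝ) 1, G (tp y)
  set B' := ∫ y in Icc (0 : I → ℝ) 1, G' (tp y)
  have e : A - F * B = (A - A') + (A' - F * B') - F * (B - B') := by ring
  have hq : ε / (4 * (M + 1)) * M ≤ ε / 4 := by
    rw [div_mul_eq_mul_div, div_le_div_iff₀ (by positivity) (by positivity)]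
    nlinarith
  calc ‖A - F * B‖ ≤ ‖A - A'‖ + ‖A' - F * B'‖ + ‖F * (B - B')‖ := by
        rw [e]
        exact (norm_sub_le _ _).trans (add_le_add (norm_add_le _ _) le_rfl)
    _ ≤ ε / 4 + ‖A' - F * B'‖ + ε / 4 := by
        refine add_le_add (add_le_add (a1.trans hq) le_rfl) ?_
        rw [norm_mul]
        refine (mul_le_mul a3 a2 (norm_nonneg _) hM0).trans ?_
        rw [mul_comm]
        exact hq
    _ < ε := by linarith

/-- **Decoupling.** Periodic functions of the phases `H ^ a i * (n i · x)` with different exponents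
`a i ≥ 1` become independent of `f` and of each other as `H → ∞`. -/
theorem decouple {a : I → ℕ} {n : I → K3} (ha : Function.Injective a) (ha1 : ∀ i, 1 ≤ a i)
    (hn : ∀ i, n i ≠ 0) {f : V → ℂ} (hf : Continuous f) {G : (I → ℝ) → ℂ} (hG : Continuous G)
    (hper : ∀ (y : I → ℝ) (m : I → ℤ), G (fun i => y i + m i) = G y) :
    Tendsto (fun N : ℕ => ∫ x in cube, f x * G (pz a n N x)) atTop
      (𝓝 ((∫ x in cube, f x) * ∫ y in Icc (0 : I → ℝ) 1, G y)) := by
  -- the function on the torus
  have hq : IsOpenQuotientMap (tp (I := I)) := by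
    have h : IsOpenQuotientMap (Pi.map (fun (_ : I) (r : ℝ) => (r : UnitAddCircle))) :=
      IsOpenQuotientMap.piMap fun _ => QuotientAddGroup.isOpenQuotientMap_mk
    exact h
  have hfac : ∀ y y' : I → ℝ, tp y = tp y' → G y = G y' := by
    intro y y' h
    have h2 : ∀ i, ∃ m : ℤ, y' i = y i + m := by
      intro i
      have h3 : ((y i : ℝ) : UnitAddCircle) = (y' i : UnitAddCircle) := congrFun h i
      rw [QuotientAddGroup.eq, AddSubgroup.mem_zmultiples_iff] at h3
      obtain ⟨m, hm⟩ := h3
      refine ⟨m, ?_⟩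
      rw [zsmul_one] at hm
      rw [hm]; ring
    choose m hm using h2
    rw [← hper y m]
    congr 1
    funext i
    exact (hm i).symm
  let Gt : C(UnitAddTorus I, ℂ) := ⟨fun t => G (Function.surjInv hq.surjective t), by
    rw [hq.isQuotientMap.continuous_iff]
    have : (fun t => G (Function.surjInv hq.surjective t)) ∘ tp = G := by
      funext y
      exact hfac _ _ (Function.surjInv_eq hq.surjective (tp y))
    rw [this]
    exact hG⟩
  have hGt : ∀ y, Gt (tp y) = G y := fun y =>
    hfac _ _ (Function.surjInv_eq hq.surjective (tp y))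
  have h := dc_all ha ha1 hn hf Gt
  unfold Dc at h
  simp_rw [hGt] at h
  exact h

end

end Pool.Agent.Run7.h980.WS
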