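import Pool.Agent.Run7.h744.WS.HDefs
import Pool.Agent.Run7.h744.GS.P9

/-!
Piece R3b of the project WS (rough data): convergence of the coefficients with a polynomial bound
gives convergence of the pairings with smooth periodic functions.
-/

set_option autoImplicit false

open MeasureTheory Set Filter Topology
open scoped ContDiff ENNReal ComplexConjugate

namespace Pool.Agent.Run7.h980.WS

open H459R3.NS Pool.Agent.Run7 Pool.Agent.Run7.h782.GD Pool.Agent.Run7.h782.GS
open Pool.Agent.Run7.h782.WS Pool.Agent.Run7.h744.GS Pool.Agent.Run7.h744.WS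

/-- Parseval for two smooth periodic functions. -/
theorem parseval {f φ : V → ℝ} (hf : SP f) (hφ : Continuous φ) :
    ((∫ x in cube, f x * φ x : ℝ) : ℂ) = ∑' k, fr f k * conj (fr φ k) := by
  have hs : Summable (fr f) := (rap_fr hf).summable
  have hpars := integral_S_mul hs (g := fun x => (φ x : ℂ)) (Complex.continuous_ofReal.comp hφ)
  have hint : (∫ x in cube, S (fr f) x * (φ x : ℂ)) = ((∫ x in cube, f x * φ x : ℝ) : ℂ) := by
    rw [← integral_complex_ofReal]
    congr 1
    funext x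
    rw [S_fr hf]
    push_cast
    rfl
  rw [← hint, ← hpars.tsum_eq]
  refine tsum_congr fun k => ?_
  congr 1
  rw [← h32.GD.fr_neg]
  unfold fr fc
  rw [neg_neg]

theorem rap_poly {a : K3 → ℂ} (h : Rap a) : Summable fun k => (1 + len k) ^ 2 * ‖a k‖ := by
  have h0 := h 0
  have h1 := h 1
  have h2 := h 2
  refine Summable.of_nonneg_of_le (fun k => by positivity) (fun k => ?_)
    ((h0.add (h1.mul_left 4)).add (h2.mul_left 4))
  have h3 := len_le_N k
  have h4 := h782.GD.len_nonneg k
  have h5 := norm_nonneg (a k)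
  have h6 : (1 + len k) ^ 2 ≤ (1 + 2 * (N k : ℝ)) ^ 2 :=
    pow_le_pow_left₀ (by linarith) (by linarith) 2
  calc (1 + len k) ^ 2 * ‖a k‖ ≤ (1 + 2 * (N k : ℝ)) ^ 2 * ‖a k‖ :=
        mul_le_mul_of_nonneg_right h6 h5
    _ = _ := by ring

/-- **Piece R3b.** -/
theorem pairH : StmPairH := by
  intro f γ hf hfp hlim hC φ hφ hφp
  obtain ⟨C, hC⟩ := hC
  have hspφ : SP φ := ⟨hφ, hφp⟩
  have hsum := (rap_poly (rap_fr hspφ)).mul_left C
  have h1 : Tendsto (fun t => ∑' k, fr (f t) k * conj (fr φ k)) (𝓝[>] 0)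
      (𝓝 (∑' k, γ k * conj (fr φ k))) := by
    refine tendsto_tsum_of_dominated_convergence hsum (fun k => (hlim k).mul_const _) ?_
    have h2 : ∀ᶠ t : ℝ in 𝓝[>] 0, t ∈ Ioc (0 : ℝ) 1 := Ioc_mem_nhdsGT one_pos
    filter_upwards [h2] with t ht k
    rw [norm_mul, RCLike.norm_conj, ← mul_assoc]
    exact mul_le_mul_of_nonneg_right (hC t ht.1 ht.2 k) (norm_nonneg _)
  have h3 := (Complex.continuous_re.tendsto _).comp h1
  refine h3.congr' ?_
  filter_upwards [self_mem_nhdsWithin] with t ht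
  show (∑' k, fr (f t) k * conj (fr φ k)).re = _
  rw [← parseval ⟨hf t ht, hfp t ht⟩ hφ.continuous, Complex.ofReal_re]

end Pool.Agent.Run7.h980.WS
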