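import Pool.Agent.Run7.h980.WS.Conc

/-!
Profiles (piece W1c).
-/

set_option autoImplicit false

open MeasureTheory Set Filter Topology
open scoped ContDiff ComplexConjugate NNReal

namespace Pool.Agent.Run7.h980.WS

open H459R3.NS Pool.Agent.Run7.h782 Pool.Agent.Run7.h782.GD Pool.Agent.Run7.h782.GS
open Pool.Agent.Run7.h969.GG Pool.Agent.Run7.h782.WS

/-- **Piece W1c.** -/
theorem prof (h1 : StmGeo) : StmProf := by
  classical
  obtain ⟨C, hC, h⟩ := h1
  refine ⟨C, hC, fun Z z hZ hz hz2 hz3 θ hθ => ?_⟩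
  obtain ⟨J, n, s, P, hJ, a1, a2, a3, a4, a5, a6⟩ := h Z z hZ hz hz2 hz3 (θ / 2) (half_pos hθ)
  have hJr : (0 : ℝ) < J := by exact_mod_cast hJ
  have hη : 0 < θ / (2 * J) := by positivity
  have hsum : ∑ _j : Fin J, θ / (2 * J) = θ / 2 := by
    rw [Finset.sum_const, Finset.card_univ, Fintype.card_fin, nsmul_eq_mul]
    field_simp
  choose s' P' b1 b2 b3 b4 b5 b6 using fun j : Fin J =>
    conc (n j) (s j) P (a1 j) (a2 j) (a3 j) (a4 j) (θ / (2 * J)) hη
  refine ⟨J, n, s', Finset.univ.biUnion P', hJ, a1, fun j p hp => b1 j p fun h' => hp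
    (Finset.mem_biUnion.2 ⟨j, Finset.mem_univ _, h'⟩), b2, b3, ?_, ?_, fun B => ?_⟩
  · have e : ∀ j, ∑ p ∈ Finset.univ.biUnion P', ‖s' j p‖ ^ 2 = ∑ p ∈ P' j, ‖s' j p‖ ^ 2 := by
      intro j
      symm
      refine Finset.sum_subset (Finset.subset_biUnion_of_mem P' (Finset.mem_univ j))
        fun p _ hp => ?_
      rw [b1 j p hp, norm_zero]
      norm_num
    calc ∑ j, ∑ p ∈ Finset.univ.biUnion P', ‖s' j p‖ ^ 2
        = ∑ j, ∑ p ∈ P' j, ‖s' j p‖ ^ 2 := Finset.sum_congr rfl fun j _ => e j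
      _ ≤ ∑ j, ∑ p ∈ P, ‖s j p‖ ^ 2 := Finset.sum_le_sum fun j _ => b4 j
      _ ≤ C * (al z + θ / 2) := a5
      _ ≤ C * (al z + θ) := by
        refine mul_le_mul_of_nonneg_left ?_ hC.le
        linarith
  · calc ∑ j, l1n (s' j) ≤ ∑ _j : Fin J, θ / (2 * J) := Finset.sum_le_sum fun j _ => b5 j
      _ ≤ θ := by rw [hsum]; linarith
  · have key : ∀ k, ‖z k - ∑ j, nl (s' j) (s' j) k‖ / len k
        ≤ ‖z k - ∑ j, nl (s j) (s j) k‖ / len k
          + ∑ j, ‖nl (s' j) (s' j) k - nl (s j) (s j) k‖ / len k := by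
      intro k
      have e : z k - ∑ j, nl (s' j) (s' j) k = (z k - ∑ j, nl (s j) (s j) k)
          - ∑ j, (nl (s' j) (s' j) k - nl (s j) (s j) k) := by
        rw [Finset.sum_sub_distrib]
        abel
      rw [← Finset.sum_div, ← add_div, e]
      refine div_le_div_of_nonneg_right ?_ (len_nonneg k)
      exact (norm_sub_le _ _).trans (add_le_add le_rfl (norm_sum_le _ _))
    calc ∑ k ∈ B, ‖z k - ∑ j, nl (s' j) (s' j) k‖ / len k
        ≤ ∑ k ∈ B, (‖z k - ∑ j, nl (s j) (s j) k‖ / len k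
          + ∑ j, ‖nl (s' j) (s' j) k - nl (s j) (s j) k‖ / len k) :=
          Finset.sum_le_sum fun k _ => key k
      _ = ∑ k ∈ B, ‖z k - ∑ j, nl (s j) (s j) k‖ / len k
          + ∑ j, ∑ k ∈ B, ‖nl (s' j) (s' j) k - nl (s j) (s j) k‖ / len k := by
          rw [Finset.sum_add_distrib]
          congr 1
          exact Finset.sum_comm
      _ ≤ θ / 2 + ∑ _j : Fin J, θ / (2 * J) :=
          add_le_add (a6 B) (Finset.sum_le_sum fun j _ => b6 j B)
      _ = θ := by rw [hsum]; ring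

end Pool.Agent.Run7.h980.WS
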