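import Pool.Agent.Run7.h980.WS.Shift

/-!
Concentration of profiles (piece W1b).
-/

set_option autoImplicit false

open MeasureTheory Set Filter Topology
open scoped ContDiff ComplexConjugate NNReal

namespace Pool.Agent.Run7.h980.WS

open H459R3.NS Pool.Agent.Run7.h782 Pool.Agent.Run7.h782.GD Pool.Agent.Run7.h782.GS
open Pool.Agent.Run7.h969.GG Pool.Agent.Run7.h782.WS

theorem md_apply (m : K3) (s : Cf) (k : K3) (i : Fin 3) :
    md m s k i = ((Real.sqrt (2 / 3) : ℝ) : ℂ)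
      * (s k i + 1 / 2 * s (k - m) i + 1 / 2 * s (k + m) i) := by
  simp only [md, Pi.smul_apply, Pi.add_apply, smul_eq_mul, sh, sub_neg_eq_add]

theorem md_supp {s : Cf} {P : Finset K3} (hP : ∀ p ∉ P, s p = 0) (m : K3) :
    ∀ p ∉ P ∪ P.image (fun q => q + m) ∪ P.image (fun q => q - m), md m s p = 0 := by
  intro p hp
  rw [Finset.mem_union, Finset.mem_union, not_or, not_or] at hp
  obtain ⟨⟨h1, h2⟩, h3⟩ := hp
  have e1 := hP p h1
  have e2 : s (p - m) = 0 := hP _ fun h => h2 (Finset.mem_image.2 ⟨p - m, h, by abel⟩)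
  have e3 : s (p + m) = 0 := hP _ fun h => h3 (Finset.mem_image.2 ⟨p + m, h, by abel⟩)
  funext i
  rw [md_apply, e1, e2, e3]
  simp

theorem md_herm {s : Cf} (hs : Herm s) (m : K3) : Herm (md m s) := by
  intro k i
  have e1 : s (-k - m) i = (starRingEnd ℂ) (s (k + m) i) := by
    rw [← hs (k + m) i]
    congr 2
    abel
  have e2 : s (-k + m) i = (starRingEnd ℂ) (s (k - m) i) := by
    rw [← hs (k - m) i]
    congr 2
    abel
  rw [md_apply, md_apply, hs k i, e1, e2]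
  simp only [map_mul, map_add, Complex.conj_ofReal, map_div₀, map_one, map_ofNat]
  ring

theorem md_kd {n : K3} {s : Cf} (hn : ∀ p, kd n (s p) = 0) (m p : K3) :
    kd n (md m s p) = 0 := by
  have e : md m s p = ((Real.sqrt (2 / 3) : ℝ) : ℂ)
      • (s p + (1 / 2 : ℂ) • s (p - m) + (1 / 2 : ℂ) • s (p + m)) := by
    funext i
    rw [md_apply]
    simp only [Pi.smul_apply, Pi.add_apply, smul_eq_mul]
  rw [e, kd_smul, kd_add, kd_add, kd_smul, kd_smul, hn, hn, hn]
  ring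

theorem sq_shift_le {s : Cf} {P : Finset K3} (hP : ∀ p ∉ P, s p = 0) (m : K3) (A : Finset K3) :
    ∑ p ∈ A, ‖s (p + m)‖ ^ 2 ≤ ∑ p ∈ P, ‖s p‖ ^ 2 := by
  classical
  have e1 : ∑ p ∈ A, ‖s (p + m)‖ ^ 2 = ∑ q ∈ A.image (fun p => p + m), ‖s q‖ ^ 2 := by
    rw [Finset.sum_image]
    intro x _ y _ h
    exact add_right_cancel h
  have e2 : ∑ q ∈ A.image (fun p => p + m), ‖s q‖ ^ 2
      ≤ ∑ q ∈ A.image (fun p => p + m) ∪ P, ‖s q‖ ^ 2 :=
    Finset.sum_le_sum_of_subset_of_nonneg Finset.subset_union_left fun q _ _ => sq_nonneg _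
  have e3 : ∑ q ∈ P, ‖s q‖ ^ 2 = ∑ q ∈ A.image (fun p => p + m) ∪ P, ‖s q‖ ^ 2 := by
    refine Finset.sum_subset Finset.subset_union_right fun q _ hq => ?_
    rw [hP q hq, norm_zero]
    norm_num
  rw [e1, e3]
  exact e2

theorem md_sq {s : Cf} {P : Finset K3} {Λ : ℝ} {m : K3} (hP : ∀ p ∉ P, s p = 0)
    (hΛ : ∀ p ∈ P, len p ≤ Λ) (hm : 2 * Λ < len m) (A : Finset K3) :
    ∑ p ∈ A, ‖md m s p‖ ^ 2 ≤ ∑ p ∈ P, ‖s p‖ ^ 2 := by
  have hc : (Real.sqrt (2 / 3)) ^ 2 = 2 / 3 := Real.sq_sqrt (by norm_num)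
  have hc0 : 0 ≤ Real.sqrt (2 / 3) := Real.sqrt_nonneg _
  have key : ∀ p, ‖md m s p‖ ^ 2
      ≤ 2 / 3 * ‖s (p + 0)‖ ^ 2 + 1 / 6 * ‖s (p + -m)‖ ^ 2 + 1 / 6 * ‖s (p + m)‖ ^ 2 := by
    intro p
    rw [add_zero, ← sub_eq_add_neg]
    have e : md m s p = ((Real.sqrt (2 / 3) : ℝ) : ℂ)
        • (s p + (1 / 2 : ℂ) • s (p - m) + (1 / 2 : ℂ) • s (p + m)) := by
      funext i
      rw [md_apply]
      simp only [Pi.smul_apply, Pi.add_apply, smul_eq_mul]
    have hn : ∀ v : C3, ‖((Real.sqrt (2 / 3) : ℝ) : ℂ) • v‖ ^ 2 = 2 / 3 * ‖v‖ ^ 2 := by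
      intro v
      rw [norm_smul, Complex.norm_real, Real.norm_of_nonneg hc0, mul_pow, hc]
    have hh : ∀ v : C3, ‖(1 / 2 : ℂ) • v‖ ^ 2 = 1 / 4 * ‖v‖ ^ 2 := by
      intro v
      rw [norm_smul, mul_pow]
      norm_num
    have p1 := norm_nonneg (s p)
    have p2 := norm_nonneg (s (p - m))
    have p3 := norm_nonneg (s (p + m))
    rw [e, hn]
    by_cases h1 : s p = 0
    · by_cases h2 : s (p - m) = 0
      · rw [h1, h2, smul_zero, zero_add, zero_add, hh, norm_zero]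
        nlinarith
      · have h3 : s (p + m) = 0 := by
          by_contra h3
          have h4 := supp_bd hP hΛ h2
          have h5 := supp_bd hP hΛ h3
          have h6 := len_add_le (p + m) (-(p - m))
          rw [len_neg] at h6
          have h7 : (p + m) + -(p - m) = 2 • m := by
            rw [two_nsmul]; abel
          rw [h7, len_nsmul] at h6
          have h8 := len_nonneg m
          have h9 := len_nonneg (p + m)
          push_cast at h6
          linarith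
        rw [h1, h3, smul_zero, zero_add, add_zero, hh, norm_zero]
        nlinarith
    · have h2 : s (p - m) = 0 := by
        by_contra h2
        have h4 := supp_bd hP hΛ h1
        have h5 := supp_bd hP hΛ h2
        have h6 := len_add_le p (-(p - m))
        rw [len_neg] at h6
        have h7 : p + -(p - m) = m := by abel
        rw [h7] at h6
        linarith
      have h3 : s (p + m) = 0 := by
        by_contra h3
        have h4 := supp_bd hP hΛ h1
        have h5 := supp_bd hP hΛ h3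
        have h6 := len_add_le (p + m) (-p)
        rw [len_neg] at h6
        have h7 : p + m + -p = m := by abel
        rw [h7] at h6
        linarith
      rw [h2, h3, smul_zero, add_zero, add_zero, norm_zero]
      nlinarith
  have b1 := sq_shift_le hP 0 A
  have b2 := sq_shift_le hP (-m) A
  have b3 := sq_shift_le hP m A
  calc ∑ p ∈ A, ‖md m s p‖ ^ 2
      ≤ ∑ p ∈ A, (2 / 3 * ‖s (p + 0)‖ ^ 2 + 1 / 6 * ‖s (p + -m)‖ ^ 2
          + 1 / 6 * ‖s (p + m)‖ ^ 2) := Finset.sum_le_sum fun p _ => key p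
    _ = 2 / 3 * ∑ p ∈ A, ‖s (p + 0)‖ ^ 2 + 1 / 6 * ∑ p ∈ A, ‖s (p + -m)‖ ^ 2
          + 1 / 6 * ∑ p ∈ A, ‖s (p + m)‖ ^ 2 := by
        rw [Finset.sum_add_distrib, Finset.sum_add_distrib, ← Finset.mul_sum, ← Finset.mul_sum,
          ← Finset.mul_sum]
    _ ≤ _ := by linarith

/-- The interaction of the modulated profile. -/
theorem md_nl_le {n : K3} {s : Cf} {P : Finset K3} {Λ : ℝ} {N : ℕ} (hn0 : n ≠ 0)
    (hP : ∀ p ∉ P, s p = 0) (hn : ∀ p, kd n (s p) = 0) (hΛ0 : 0 ≤ Λ)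
    (hΛ : ∀ p ∈ P, len p ≤ Λ) (hN : 4 * Λ ≤ N) (hN0 : 0 < N) (B : Finset K3) :
    ∑ k ∈ B, ‖nl (md (N • n) s) (md (N • n) s) k - nl s s k‖ / len k
      ≤ 288 * Real.pi * Λ / N * (N0 s * N0 s) := by
  have hpi := Real.pi_pos
  have hs : L1 s := L1.of_supp hP
  have hNr : (0 : ℝ) < N := by exact_mod_cast hN0
  set m : K3 := N • n with hm
  have hlm : (N : ℝ) ≤ len m := by
    rw [hm, len_nsmul]
    have := one_le_len hn0
    nlinarith
  have hlm2 : (N : ℝ) ≤ len (m + m) := by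
    rw [← two_nsmul, len_nsmul]
    push_cast
    linarith
  have hkm : ∀ p, kd m (s p) = 0 := fun p => by rw [hm, kd_nsmul, hn, mul_zero]
  have a1 := nl_gen (m₁ := 0) (m₂ := m) hP hΛ (fun p => by rw [zero_add]; exact hkm p)
    (by rwa [zero_add]) hN hNr hΛ0 B
  have a2 := nl_gen (m₁ := 0) (m₂ := -m) hP hΛ
    (fun p => by rw [zero_add, kd_neg_left, hkm p, neg_zero])
    (by rwa [zero_add, len_neg]) hN hNr hΛ0 B
  have a3 := nl_gen (m₁ := m) (m₂ := 0) hP hΛ (fun p => by rw [add_zero]; exact hkm p)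
    (by rwa [add_zero]) hN hNr hΛ0 B
  have a4 := nl_gen (m₁ := -m) (m₂ := 0) hP hΛ
    (fun p => by rw [add_zero, kd_neg_left, hkm p, neg_zero])
    (by rwa [add_zero, len_neg]) hN hNr hΛ0 B
  have a5 := nl_gen (m₁ := m) (m₂ := m) hP hΛ
    (fun p => by rw [kd_add_left, hkm p, add_zero]) hlm2 hN hNr hΛ0 B
  have a6 := nl_gen (m₁ := -m) (m₂ := -m) hP hΛ
    (fun p => by rw [kd_add_left, kd_neg_left, hkm p, neg_zero, add_zero])
    (by rwa [← neg_add, len_neg]) hN hNr hΛ0 B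
  set K : ℝ := 96 * Real.pi * Λ / N * (N0 s * N0 s) with hK
  have hK0 : 0 ≤ K := by
    have := N0_nonneg s
    positivity
  have key : ∀ k, ‖nl (md m s) (md m s) k - nl s s k‖ / len k
      ≤ 1 / 2 * (‖nl (sh 0 s) (sh m s) k‖ / len k) + 1 / 2 * (‖nl (sh 0 s) (sh (-m) s) k‖ / len k)
        + 1 / 2 * (‖nl (sh m s) (sh 0 s) k‖ / len k)
        + 1 / 2 * (‖nl (sh (-m) s) (sh 0 s) k‖ / len k)
        + 1 / 2 * (‖nl (sh m s) (sh m s) k‖ / len k)
        + 1 / 2 * (‖nl (sh (-m) s) (sh (-m) s) k‖ / len k) := by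
    intro k
    have e : nl (md m s) (md m s) k - nl s s k = (nl (md m s) (md m s) - nl s s) k := rfl
    have hl := len_nonneg k
    rw [e, md_nl hs m]
    simp only [Pi.smul_apply, Pi.add_apply]
    set A1 := nl (sh 0 s) (sh m s) k
    set A2 := nl (sh 0 s) (sh (-m) s) k
    set A3 := nl (sh m s) (sh 0 s) k
    set A4 := nl (sh (-m) s) (sh 0 s) k
    set A5 := nl (sh m s) (sh m s) k
    set A6 := nl (sh (-m) s) (sh (-m) s) k
    have q2 : ∀ v : C3, ‖(1 / 2 : ℂ) • v‖ = 1 / 2 * ‖v‖ := by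
      intro v; rw [norm_smul]; norm_num
    have q4 : ∀ v : C3, ‖(1 / 4 : ℂ) • v‖ ≤ 1 / 2 * ‖v‖ := by
      intro v
      rw [norm_smul]
      have : ‖(1 / 4 : ℂ)‖ = 1 / 4 := by norm_num
      rw [this]
      have := norm_nonneg v
      linarith
    have h1 : ‖(2 / 3 : ℂ) • ((1 / 2 : ℂ) • A1 + (1 / 2 : ℂ) • A2 + (1 / 2 : ℂ) • A3
        + (1 / 2 : ℂ) • A4 + (1 / 4 : ℂ) • A5 + (1 / 4 : ℂ) • A6)‖
        ≤ 1 / 2 * ‖A1‖ + 1 / 2 * ‖A2‖ + 1 / 2 * ‖A3‖ + 1 / 2 * ‖A4‖ + 1 / 2 * ‖A5‖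
          + 1 / 2 * ‖A6‖ := by
      rw [norm_smul]
      have h23 : ‖(2 / 3 : ℂ)‖ = 2 / 3 := by norm_num
      rw [h23]
      have t1 := norm_add_le ((1 / 2 : ℂ) • A1 + (1 / 2 : ℂ) • A2 + (1 / 2 : ℂ) • A3
        + (1 / 2 : ℂ) • A4 + (1 / 4 : ℂ) • A5) ((1 / 4 : ℂ) • A6)
      have t2 := norm_add_le ((1 / 2 : ℂ) • A1 + (1 / 2 : ℂ) • A2 + (1 / 2 : ℂ) • A3
        + (1 / 2 : ℂ) • A4) ((1 / 4 : ℂ) • A5)
      have t3 := norm_add_le ((1 / 2 : ℂ) • A1 + (1 / 2 : ℂ) • A2 + (1 / 2 : ℂ) • A3)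
        ((1 / 2 : ℂ) • A4)
      have t4 := norm_add_le ((1 / 2 : ℂ) • A1 + (1 / 2 : ℂ) • A2) ((1 / 2 : ℂ) • A3)
      have t5 := norm_add_le ((1 / 2 : ℂ) • A1) ((1 / 2 : ℂ) • A2)
      have r1 := q2 A1
      have r2 := q2 A2
      have r3 := q2 A3
      have r4 := q2 A4
      have r5 := q4 A5
      have r6 := q4 A6
      have hnn := norm_nonneg ((1 / 2 : ℂ) • A1 + (1 / 2 : ℂ) • A2 + (1 / 2 : ℂ) • A3
        + (1 / 2 : ℂ) • A4 + (1 / 4 : ℂ) • A5 + (1 / 4 : ℂ) • A6)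
      linarith
    refine (div_le_div_of_nonneg_right h1 hl).trans (le_of_eq ?_)
    ring
  calc ∑ k ∈ B, ‖nl (md m s) (md m s) k - nl s s k‖ / len k
      ≤ ∑ k ∈ B, (1 / 2 * (‖nl (sh 0 s) (sh m s) k‖ / len k)
        + 1 / 2 * (‖nl (sh 0 s) (sh (-m) s) k‖ / len k)
        + 1 / 2 * (‖nl (sh m s) (sh 0 s) k‖ / len k)
        + 1 / 2 * (‖nl (sh (-m) s) (sh 0 s) k‖ / len k)
        + 1 / 2 * (‖nl (sh m s) (sh m s) k‖ / len k)
        + 1 / 2 * (‖nl (sh (-m) s) (sh (-m) s) k‖ / len k)) :=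
        Finset.sum_le_sum fun k _ => key k
    _ ≤ 1 / 2 * K + 1 / 2 * K + 1 / 2 * K + 1 / 2 * K + 1 / 2 * K + 1 / 2 * K := by
        rw [Finset.sum_add_distrib, Finset.sum_add_distrib, Finset.sum_add_distrib,
          Finset.sum_add_distrib, Finset.sum_add_distrib, ← Finset.mul_sum, ← Finset.mul_sum,
          ← Finset.mul_sum, ← Finset.mul_sum, ← Finset.mul_sum, ← Finset.mul_sum]
        linarith
    _ = _ := by rw [hK]; ring

/-- Riemann-Lebesgue on the period cell. -/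
theorem rl {n : K3} (hn : n ≠ 0) {g : V → ℝ} (hg : Continuous g) :
    Tendsto (fun N : ℕ => ∫ x in cube, Real.cos (2 * Real.pi * ph (N • n) x) * g x) atTop
      (𝓝 0) := by
  classical
  have hmeas : MeasurableSet cube := measurableSet_Icc
  let φl : V →ₗ[ℝ] ℝ := ∑ j : Fin 3, (n j : ℝ) • LinearMap.proj (R := ℝ) (φ := fun _ => ℝ) j
  let φ : StrongDual ℝ V := LinearMap.toContinuousLinearMap φl
  have hφ : ∀ x, φ x = ph n x := by
    intro x
    have : φ x = φl x := rfl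
    rw [this]
    simp only [φl, ph, LinearMap.sum_apply, LinearMap.smul_apply, LinearMap.proj_apply,
      smul_eq_mul]
  have hne : φ ≠ 0 := by
    intro h
    have h1 : φ (fun j => (n j : ℝ)) = 0 := by rw [h]; rfl
    rw [hφ] at h1
    have h2 : ph n (fun j => (n j : ℝ)) = GD.sq n := by
      unfold ph GD.sq
      exact Finset.sum_congr rfl fun j _ => by ring
    have h3 := one_le_sq hn
    linarith
  have ht : Tendsto (fun N : ℕ => (N : ℝ) • φ) atTop (cocompact (StrongDual ℝ V)) := by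
    rw [← Metric.cobounded_eq_cocompact, ← tendsto_norm_atTop_iff_cobounded]
    have e : (fun N : ℕ => ‖(N : ℝ) • φ‖) = fun N : ℕ => (N : ℝ) * ‖φ‖ := by
      funext N
      rw [norm_smul, Real.norm_natCast]
    rw [e]
    exact tendsto_natCast_atTop_atTop.atTop_mul_const (norm_pos_iff.2 hne)
  have h := (tendsto_integral_exp_smul_cocompact (cube.indicator fun x => (g x : ℂ))
    (volume : Measure V)).comp ht
  have hre := (Complex.continuous_re.tendsto _).comp h
  rw [Complex.zero_re] at hre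
  have e3 : ∀ N : ℕ, (∫ v : V, Real.fourierChar (-(((N : ℝ) • φ) v))
      • cube.indicator (fun x => (g x : ℂ)) v).re
      = ∫ x in cube, Real.cos (2 * Real.pi * ph (N • n) x) * g x := by
    intro N
    have i1 : (∫ v : V, Real.fourierChar (-(((N : ℝ) • φ) v))
        • cube.indicator (fun x => (g x : ℂ)) v)
        = ∫ x in cube, Real.fourierChar (-(((N : ℝ) • φ) x)) • (g x : ℂ) := by
      rw [← integral_indicator hmeas]
      congr 1
      funext v
      by_cases hv : v ∈ cube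
      · rw [indicator_of_mem hv, indicator_of_mem hv]
      · rw [indicator_of_notMem hv, indicator_of_notMem hv, smul_zero]
    have hF : Continuous fun x : V => Real.fourierChar (-(((N : ℝ) • φ) x)) • (g x : ℂ) := by
      have hF1 : Continuous fun x : V => Real.fourierChar (-(((N : ℝ) • φ) x)) :=
        Real.continuous_fourierChar.comp ((N : ℝ) • φ).continuous.neg
      simp only [Circle.smul_def]
      exact (continuous_subtype_val.comp hF1).smul (Complex.continuous_ofReal.comp hg)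
    have hI := integrableOn_cube hF
    have i2 := Complex.reCLM.integral_comp_comm hI
    rw [i1]
    simp only [Complex.reCLM_apply] at i2
    rw [← i2]
    refine setIntegral_congr_fun hmeas fun x _ => ?_
    have e4 : ((N : ℝ) • φ) x = ph (N • n) x := by
      have : ((N : ℝ) • φ) x = (N : ℝ) * φ x := rfl
      rw [this, hφ]
      unfold ph
      rw [Finset.mul_sum]
      refine Finset.sum_congr rfl fun j _ => ?_
      rw [Pi.smul_apply, nsmul_eq_mul]
      push_cast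
      ring
    show (Real.fourierChar (-(((N : ℝ) • φ) x)) • (g x : ℂ)).re = _
    rw [e4, Circle.smul_def, Real.fourierChar_apply, smul_eq_mul, Complex.re_mul_ofReal,
      Complex.exp_ofReal_mul_I_re, mul_neg, Real.cos_neg]
  refine hre.congr fun N => ?_
  exact e3 N

theorem S_sh (m : K3) (s : Cf) (i : Fin 3) (x : V) :
    S (fun k => s (k - m) i) x = ee m x * S (fun k => s k i) x := by
  unfold S
  rw [← tsum_mul_left, ← (Equiv.subRight m).tsum_eq fun k => ee m x * (s k i * ee k x)]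
  refine tsum_congr fun k => ?_
  rw [Equiv.subRight_apply]
  have h : ee k x = ee m x * ee (k - m) x := by
    rw [← ee_add_left]
    congr 1
    abel
  rw [h]
  ring

theorem ee_add_neg (m : K3) (x : V) :
    ee m x + ee (-m) x = ((2 * Real.cos (2 * Real.pi * ph m x) : ℝ) : ℂ) := by
  unfold ee
  rw [ph_neg]
  push_cast
  rw [Complex.cos]
  have e1 : (2 : ℂ) * Real.pi * Complex.I * (ph m x : ℂ)
      = 2 * Real.pi * (ph m x : ℂ) * Complex.I := by ring
  have e2 : (2 : ℂ) * Real.pi * Complex.I * -(ph m x : ℂ)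
      = -(2 * Real.pi * (ph m x : ℂ)) * Complex.I := by ring
  rw [e1, e2]
  ring

theorem summ {s : Cf} {P : Finset K3} (hP : ∀ p ∉ P, s p = 0) (i : Fin 3) :
    Summable fun k => s k i :=
  summable_of_ne_finset_zero (s := P) fun k hk => by rw [hP k hk]; rfl

theorem S_md {s : Cf} {P : Finset K3} (hP : ∀ p ∉ P, s p = 0) (m : K3) (i : Fin 3) (x : V) :
    S (fun k => md m s k i) x
      = ((Real.sqrt (2 / 3) * (1 + Real.cos (2 * Real.pi * ph m x)) : ℝ) : ℂ)
        * S (fun k => s k i) x := by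
  have h0 := summ hP i
  have h1 : Summable fun k : K3 => s (k - m) i := (Equiv.subRight m).summable_iff.2 h0
  have h2 : Summable fun k : K3 => s (k - -m) i := (Equiv.subRight (-m)).summable_iff.2 h0
  have t0 := summable_term h0 x
  have t1 := summable_term h1 x
  have t2 := summable_term h2 x
  have e : S (fun k => md m s k i) x = ((Real.sqrt (2 / 3) : ℝ) : ℂ)
      * (S (fun k => s k i) x + 1 / 2 * S (fun k => s (k - m) i) x
        + 1 / 2 * S (fun k => s (k - -m) i) x) := by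
    unfold S
    rw [← tsum_mul_left, ← tsum_mul_left, ← t0.tsum_add (t1.mul_left _),
      ← (t0.add (t1.mul_left _)).tsum_add (t2.mul_left _), ← tsum_mul_left]
    refine tsum_congr fun k => ?_
    show md m s k i * ee k x = _
    rw [md_apply, sub_neg_eq_add]
    ring
  have h3 := ee_add_neg m x
  rw [e, S_sh, S_sh]
  have h4 : S (fun k => s k i) x + 1 / 2 * (ee m x * S (fun k => s k i) x)
      + 1 / 2 * (ee (-m) x * S (fun k => s k i) x)
      = (1 + 1 / 2 * (ee m x + ee (-m) x)) * S (fun k => s k i) x := by ring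
  rw [h4, h3]
  push_cast
  ring

theorem norm_S_md {s : Cf} {P : Finset K3} (hP : ∀ p ∉ P, s p = 0) (m : K3) (i : Fin 3) (x : V) :
    ‖S (fun k => md m s k i) x‖ = Real.sqrt (2 / 3) * ‖S (fun k => s k i) x‖
      + Real.sqrt (2 / 3) * (Real.cos (2 * Real.pi * ph m x) * ‖S (fun k => s k i) x‖) := by
  rw [S_md hP, norm_mul, Complex.norm_real, Real.norm_of_nonneg]
  · ring
  · have := Real.neg_one_le_cos (2 * Real.pi * ph m x)
    exact mul_nonneg (Real.sqrt_nonneg _) (by linarith)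

theorem l1n_md {n : K3} {s : Cf} {P : Finset K3} (hn : n ≠ 0) (hP : ∀ p ∉ P, s p = 0) :
    Tendsto (fun N : ℕ => l1n (md (N • n) s)) atTop (𝓝 (Real.sqrt (2 / 3) * l1n s)) := by
  unfold l1n
  rw [Finset.mul_sum]
  refine tendsto_finsetSum _ fun i _ => ?_
  have hc : Continuous fun x => ‖S (fun k => s k i) x‖ := (S_continuous (summ hP i)).norm
  have h1 := (rl hn hc).const_mul (Real.sqrt (2 / 3))
  have h2 := h1.const_add (Real.sqrt (2 / 3) * ∫ x in cube, ‖S (fun k => s k i) x‖)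
  rw [mul_zero, add_zero] at h2
  refine h2.congr fun N => ?_
  have hcos : Continuous fun x : V => Real.cos (2 * Real.pi * ph (N • n) x)
      * ‖S (fun k => s k i) x‖ := by
    refine Continuous.mul ?_ hc
    exact Real.continuous_cos.comp (continuous_const.mul (ph_contDiff (N • n) (n := 0)).continuous)
  have e1 : (∫ x in cube, ‖S (fun k => md (N • n) s k i) x‖)
      = ∫ x in cube, (Real.sqrt (2 / 3) * ‖S (fun k => s k i) x‖
      + Real.sqrt (2 / 3) * (Real.cos (2 * Real.pi * ph (N • n) x) * ‖S (fun k => s k i) x‖)) := by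
    refine setIntegral_congr_fun measurableSet_Icc fun x _ => ?_
    exact norm_S_md hP (N • n) i x
  rw [e1, integral_add ((integrableOn_cube hc).const_mul _)
    ((integrableOn_cube hcos).const_mul _), integral_const_mul, integral_const_mul]

/-- One step of the concentration. -/
theorem step {n : K3} {s : Cf} {P : Finset K3} (hn0 : n ≠ 0) (hP : ∀ p ∉ P, s p = 0)
    (hs : Herm s) (hn : ∀ p, kd n (s p) = 0) {η : ℝ} (hη : 0 < η) :
    ∃ (s' : Cf) (P' : Finset K3), (∀ p ∉ P', s' p = 0) ∧ Herm s' ∧ (∀ p, kd n (s' p) = 0) ∧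
      ∑ p ∈ P', ‖s' p‖ ^ 2 ≤ ∑ p ∈ P, ‖s p‖ ^ 2 ∧ l1n s' ≤ Real.sqrt (2 / 3) * l1n s + η ∧
      ∀ B : Finset K3, ∑ k ∈ B, ‖nl s' s' k - nl s s k‖ / len k ≤ η := by
  set Λ : ℝ := ∑ p ∈ P, len p with hΛ
  have hΛ0 : 0 ≤ Λ := Finset.sum_nonneg fun p _ => len_nonneg p
  have hΛ1 : ∀ p ∈ P, len p ≤ Λ := fun p hp =>
    Finset.single_le_sum (f := fun p => len p) (fun p _ => len_nonneg p) hp
  have h1 : ∀ᶠ N : ℕ in atTop, (288 * Real.pi * Λ * (N0 s * N0 s)) / (N : ℝ) ≤ η :=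
    (tendsto_const_div_atTop_nhds_zero_nat _).eventually_le_const hη
  have h2 : ∀ᶠ N : ℕ in atTop, l1n (md (N • n) s) ≤ Real.sqrt (2 / 3) * l1n s + η :=
    (l1n_md hn0 hP).eventually_le_const (by linarith)
  obtain ⟨N, a1, a2, a3, a4⟩ := (h1.and (h2.and
    ((tendsto_natCast_atTop_atTop.eventually_ge_atTop (4 * Λ)).and
      (eventually_gt_atTop 0)))).exists
  have hNr : (0 : ℝ) < N := by exact_mod_cast a4
  have hlm : 2 * Λ < len (N • n) := by
    rw [len_nsmul]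
    have := one_le_len hn0
    nlinarith
  refine ⟨md (N • n) s, _, md_supp hP (N • n), md_herm hs _, md_kd hn _, md_sq hP hΛ1 hlm _, a2,
    fun B => ?_⟩
  refine (md_nl_le hn0 hP hn hΛ0 hΛ1 a3 a4 B).trans (le_trans (le_of_eq ?_) a1)
  ring

/-- Iteration of the step. -/
theorem steps {n : K3} {s : Cf} {P : Finset K3} (hn0 : n ≠ 0) (hP : ∀ p ∉ P, s p = 0)
    (hs : Herm s) (hn : ∀ p, kd n (s p) = 0) {η : ℝ} (hη : 0 < η) (j : ℕ) :
    ∃ (s' : Cf) (P' : Finset K3), (∀ p ∉ P', s' p = 0) ∧ Herm s' ∧ (∀ p, kd n (s' p) = 0) ∧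
      ∑ p ∈ P', ‖s' p‖ ^ 2 ≤ ∑ p ∈ P, ‖s p‖ ^ 2 ∧
      l1n s' ≤ Real.sqrt (2 / 3) ^ j * l1n s + j * η ∧
      ∀ B : Finset K3, ∑ k ∈ B, ‖nl s' s' k - nl s s k‖ / len k ≤ j * η := by
  induction j with
  | zero =>
    refine ⟨s, P, hP, hs, hn, le_rfl, by simp, fun B => ?_⟩
    simp
  | succ j ih =>
    obtain ⟨s₁, P₁, b1, b2, b3, b4, b5, b6⟩ := ih
    obtain ⟨s₂, P₂, c1, c2, c3, c4, c5, c6⟩ := step hn0 b1 b2 b3 hη
    have hc0 : 0 ≤ Real.sqrt (2 / 3) := Real.sqrt_nonneg _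
    have hc1 : Real.sqrt (2 / 3) ≤ 1 := Real.sqrt_le_one.2 (by norm_num)
    refine ⟨s₂, P₂, c1, c2, c3, c4.trans b4, ?_, fun B => ?_⟩
    · have h1 := mul_le_mul_of_nonneg_left b5 hc0
      have h2 : Real.sqrt (2 / 3) * (j * η) ≤ j * η := by
        have : 0 ≤ (j : ℝ) * η := by positivity
        nlinarith
      rw [pow_succ]
      push_cast
      nlinarith
    · have h1 : ∀ k ∈ B, ‖nl s₂ s₂ k - nl s s k‖ / len k
          ≤ ‖nl s₂ s₂ k - nl s₁ s₁ k‖ / len k + ‖nl s₁ s₁ k - nl s s k‖ / len k := by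
        intro k _
        rw [← add_div]
        refine div_le_div_of_nonneg_right ?_ (len_nonneg k)
        exact norm_sub_le_norm_sub_add_norm_sub _ _ _
      have h2 := Finset.sum_le_sum h1
      rw [Finset.sum_add_distrib] at h2
      have h3 := b6 B
      have h4 := c6 B
      push_cast
      linarith

/-- **Piece W1b.** -/
theorem conc : StmConc := by
  intro n s P hn0 hP hs hn θ hθ
  have hc1 : Real.sqrt (2 / 3) < 1 := by
    rw [Real.sqrt_lt' one_pos]
    norm_num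
  have h1 : Tendsto (fun j : ℕ => Real.sqrt (2 / 3) ^ j * l1n s) atTop (𝓝 (0 * l1n s)) :=
    (tendsto_pow_atTop_nhds_zero_of_lt_one (Real.sqrt_nonneg _) hc1).mul_const _
  rw [zero_mul] at h1
  obtain ⟨j, hj⟩ := (h1.eventually_le_const (half_pos hθ)).exists
  have hη : 0 < θ / (2 * (j + 1)) := by positivity
  have hle : (j : ℝ) * (θ / (2 * (j + 1))) ≤ θ / 2 := by
    have e : θ / 2 = (j + 1 : ℝ) * (θ / (2 * (j + 1))) := by field_simp
    rw [e]
    exact mul_le_mul_of_nonneg_right (by linarith) hη.le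
  obtain ⟨s', P', b1, b2, b3, b4, b5, b6⟩ := steps hn0 hP hs hn hη j
  exact ⟨s', P', b1, b2, b3, b4, by linarith, fun B => (b6 B).trans (by linarith)⟩

end Pool.Agent.Run7.h980.WS
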