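import Pool.Agent.Run7.h980.WS.Dec

/-!
Even trigonometric polynomials of one variable, powers of `cos² (π t)` and their moments.
-/

set_option autoImplicit false

open MeasureTheory Set Filter Topology
open scoped ContDiff ComplexConjugate

namespace Pool.Agent.Run7.h980.WS

/-- The exponential. -/
noncomputable def e1 (h : ℤ) (t : ℝ) : ℂ := Complex.exp (2 * Real.pi * Complex.I * ((h * t : ℝ) : ℂ))

theorem e1_add (h k : ℤ) (t : ℝ) : e1 (h + k) t = e1 h t * e1 k t := by
  unfold e1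
  rw [← Complex.exp_add]
  congr 1
  push_cast
  ring

/-- `X` is an even real trigonometric polynomial with coefficients `x` vanishing off `T`. -/
structure TP (T : Finset ℤ) (x : ℤ → ℝ) (X : ℝ → ℝ) : Prop where
  supp : ∀ h ∉ T, x h = 0
  even : ∀ h, x (-h) = x h
  eq : ∀ t, (X t : ℂ) = ∑ h ∈ T, (x h : ℂ) * e1 h t

theorem TP.cont {T : Finset ℤ} {x : ℤ → ℝ} {X : ℝ → ℝ} (h : TP T x X) : Continuous X := by
  have h1 : Continuous fun t => ((X t : ℝ) : ℂ) := by
    have e : (fun t => ((X t : ℝ) : ℂ)) = fun t => ∑ h ∈ T, (x h : ℂ) * e1 h t := funext h.eq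
    rw [e]
    unfold e1
    fun_prop
  have h2 := Complex.continuous_re.comp h1
  exact h2

theorem TP.per {T : Finset ℤ} {x : ℤ → ℝ} {X : ℝ → ℝ} (h : TP T x X) (t : ℝ) (m : ℤ) :
    X (t + m) = X t := by
  have h1 : ((X (t + m) : ℝ) : ℂ) = X t := by
    rw [h.eq, h.eq]
    refine Finset.sum_congr rfl fun k _ => ?_
    congr 1
    unfold e1
    have e : (2 * Real.pi * Complex.I * ((k * (t + m) : ℝ) : ℂ))
        = 2 * Real.pi * Complex.I * ((k * t : ℝ) : ℂ) + ((k * m : ℤ) : ℂ)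
          * (2 * Real.pi * Complex.I) := by
      push_cast
      ring
    rw [e, Complex.exp_add, Complex.exp_int_mul_two_pi_mul_I, mul_one]
  exact_mod_cast h1

/-- Parseval. -/
theorem TP.sq_int {T : Finset ℤ} {x : ℤ → ℝ} {X : ℝ → ℝ} (h : TP T x X) :
    ∫ t in Icc (0 : ℝ) 1, X t ^ 2 = ∑ k ∈ T, x k ^ 2 := by
  classical
  have hc : ∀ t, ((X t : ℝ) : ℂ) = ∑ k ∈ T, (x k : ℂ) * e1 (-k) t := by
    intro t
    have h1 := congrArg (starRingEnd ℂ) (h.eq t)
    rw [Complex.conj_ofReal, map_sum] at h1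
    rw [h1]
    refine Finset.sum_congr rfl fun k _ => ?_
    rw [map_mul, Complex.conj_ofReal]
    congr 1
    unfold e1
    rw [← Complex.exp_conj]
    congr 1
    simp only [map_mul, Complex.conj_ofReal, Complex.conj_I, map_ofNat]
    push_cast
    ring
  have e : ∀ t, ((X t ^ 2 : ℝ) : ℂ) = ∑ k ∈ T, ∑ l ∈ T, (x k : ℂ) * x l * e1 (k - l) t := by
    intro t
    rw [sq]
    push_cast
    nth_rewrite 1 [h.eq t]
    rw [hc t, Finset.sum_mul_sum]
    refine Finset.sum_congr rfl fun k _ => Finset.sum_congr rfl fun l _ => ?_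
    rw [sub_eq_add_neg, e1_add]
    ring
  have hI : ∀ k : ℤ, IntegrableOn (fun t => e1 k t) (Icc (0 : ℝ) 1) := by
    intro k
    have : Continuous fun t => e1 k t := by unfold e1; fun_prop
    exact this.continuousOn.integrableOn_compact isCompact_Icc
  have h1 : ((∫ t in Icc (0 : ℝ) 1, X t ^ 2 : ℝ) : ℂ) = ((∑ k ∈ T, x k ^ 2 : ℝ) : ℂ) := by
    rw [← integral_complex_ofReal]
    simp_rw [e]
    rw [integral_finset_sum _ fun k _ => integrable_finset_sum _ fun l _ => (hI _).const_mul _]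
    push_cast
    refine Finset.sum_congr rfl fun k hk => ?_
    rw [integral_finset_sum _ fun l _ => (hI _).const_mul _]
    have e2 : ∀ l ∈ T, (∫ t in Icc (0 : ℝ) 1, (x k : ℂ) * x l * e1 (k - l) t)
        = if k = l then (x k : ℂ) ^ 2 else 0 := by
      intro l _
      rw [integral_const_mul]
      have := exp_int (k - l)
      unfold e1
      rw [this]
      by_cases hkl : k = l
      · subst hkl; simp [sq]
      · rw [if_neg (sub_ne_zero.2 hkl), if_neg hkl, mul_zero]
    rw [Finset.sum_congr rfl e2, Finset.sum_ite_eq, if_pos hk]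
  exact_mod_cast h1

theorem TP.smul {T : Finset ℤ} {x : ℤ → ℝ} {X : ℝ → ℝ} (h : TP T x X) (c : ℝ) :
    TP T (fun k => c * x k) fun t => c * X t := by
  refine ⟨fun k hk => by rw [h.supp k hk, mul_zero], fun k => by rw [h.even k], fun t => ?_⟩
  push_cast
  rw [h.eq t, Finset.mul_sum]
  exact Finset.sum_congr rfl fun k _ => by ring

theorem TP.one : TP {0} (fun k => if k = 0 then 1 else 0) fun _ => 1 := by
  refine ⟨fun k hk => ?_, fun k => ?_, fun t => ?_⟩
  · rw [if_neg]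
    simpa using hk
  · simp
  · simp [e1]

theorem cos_sq_eq (t : ℝ) : ((Real.cos (Real.pi * t) ^ 2 : ℝ) : ℂ)
    = 1 / 2 + 1 / 4 * e1 1 t + 1 / 4 * e1 (-1) t := by
  have h : Real.cos (Real.pi * t) ^ 2 = 1 / 2 + 1 / 2 * Real.cos (2 * Real.pi * t) := by
    rw [Real.cos_sq]
    ring_nf
  rw [h]
  push_cast
  rw [Complex.cos]
  unfold e1
  have a1 : (2 : ℂ) * Real.pi * Complex.I * (((1 : ℤ) * t : ℝ) : ℂ)
      = 2 * Real.pi * (t : ℂ) * Complex.I := by push_cast; ring
  have a2 : (2 : ℂ) * Real.pi * Complex.I * (((-1 : ℤ) * t : ℝ) : ℂ)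
      = -(2 * Real.pi * (t : ℂ)) * Complex.I := by push_cast; ring
  rw [a1, a2]
  ring

theorem TP.mul_cos {T : Finset ℤ} {x : ℤ → ℝ} {X : ℝ → ℝ} (h : TP T x X) :
    ∃ (T' : Finset ℤ) (x' : ℤ → ℝ), TP T' x' fun t => Real.cos (Real.pi * t) ^ 2 * X t := by
  classical
  refine ⟨T ∪ T.image (fun k => k + 1) ∪ T.image (fun k => k - 1),
    fun k => 1 / 2 * x k + 1 / 4 * x (k - 1) + 1 / 4 * x (k + 1), fun k hk => ?_, fun k => ?_,
    fun t => ?_⟩
  · rw [Finset.mem_union, Finset.mem_union, not_or, not_or] at hk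
    obtain ⟨⟨h1, h2⟩, h3⟩ := hk
    have e1 := h.supp k h1
    have e2 := h.supp (k - 1) fun h' => h2 (Finset.mem_image.2 ⟨k - 1, h', by ring⟩)
    have e3 := h.supp (k + 1) fun h' => h3 (Finset.mem_image.2 ⟨k + 1, h', by ring⟩)
    rw [e1, e2, e3]
    ring
  · have e2 : x (-k - 1) = x (k + 1) := by rw [← h.even (k + 1)]; congr 1; ring
    have e3 : x (-k + 1) = x (k - 1) := by rw [← h.even (k - 1)]; congr 1; ring
    rw [h.even k, e2, e3]
    ring
  · set T' := T ∪ T.image (fun k => k + 1) ∪ T.image (fun k => k - 1) with hT'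
    have s0 : ∑ k ∈ T', (x k : ℂ) * e1 k t = X t := by
      rw [h.eq t]
      symm
      refine Finset.sum_subset ?_ fun k _ hk => by rw [h.supp k hk]; simp
      intro k hk
      simp [hT', hk]
    have s1 : ∑ k ∈ T', (x (k - 1) : ℂ) * e1 k t = e1 1 t * X t := by
      rw [h.eq t, Finset.mul_sum]
      have e : ∑ k ∈ T, e1 1 t * ((x k : ℂ) * e1 k t)
          = ∑ k ∈ T.image (fun k => k + 1), (x (k - 1) : ℂ) * e1 k t := by
        rw [Finset.sum_image fun a _ b _ hab => add_right_cancel hab]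
        refine Finset.sum_congr rfl fun k _ => ?_
        rw [e1_add, add_sub_cancel_right]
        ring
      rw [e]
      symm
      refine Finset.sum_subset ?_ fun k _ hk => ?_
      · intro k hk
        simp only [hT', Finset.mem_union]
        exact Or.inl (Or.inr hk)
      · have : x (k - 1) = 0 := h.supp _ fun h' => hk (Finset.mem_image.2 ⟨k - 1, h', by ring⟩)
        rw [this]; simp
    have s2 : ∑ k ∈ T', (x (k + 1) : ℂ) * e1 k t = e1 (-1) t * X t := by
      rw [h.eq t, Finset.mul_sum]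
      have e : ∑ k ∈ T, e1 (-1) t * ((x k : ℂ) * e1 k t)
          = ∑ k ∈ T.image (fun k => k - 1), (x (k + 1) : ℂ) * e1 k t := by
        rw [Finset.sum_image fun a _ b _ hab => by simpa using hab]
        refine Finset.sum_congr rfl fun k _ => ?_
        rw [sub_eq_add_neg, e1_add]
        have : k + -1 + 1 = k := by ring
        rw [this]
        ring
      rw [e]
      symm
      refine Finset.sum_subset ?_ fun k _ hk => ?_
      · intro k hk
        simp only [hT', Finset.mem_union]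
        exact Or.inr hk
      · have : x (k + 1) = 0 := h.supp _ fun h' => hk (Finset.mem_image.2 ⟨k + 1, h', by ring⟩)
        rw [this]; simp
    have e4 : ((Real.cos (Real.pi * t) ^ 2 * X t : ℝ) : ℂ)
        = (1 / 2 + 1 / 4 * e1 1 t + 1 / 4 * e1 (-1) t) * X t := by
      rw [Complex.ofReal_mul, cos_sq_eq]
    rw [e4]
    have e5 : ∑ k ∈ T', ((1 / 2 * x k + 1 / 4 * x (k - 1) + 1 / 4 * x (k + 1) : ℝ) : ℂ) * e1 k t
        = 1 / 2 * ∑ k ∈ T', (x k : ℂ) * e1 k t + 1 / 4 * ∑ k ∈ T', (x (k - 1) : ℂ) * e1 k t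
          + 1 / 4 * ∑ k ∈ T', (x (k + 1) : ℂ) * e1 k t := by
      rw [Finset.mul_sum, Finset.mul_sum, Finset.mul_sum, ← Finset.sum_add_distrib,
        ← Finset.sum_add_distrib]
      refine Finset.sum_congr rfl fun k _ => ?_
      push_cast
      ring
    rw [e5, s0, s1, s2]
    ring

theorem TP.cos_pow (D : ℕ) :
    ∃ (T : Finset ℤ) (x : ℤ → ℝ), TP T x fun t => (Real.cos (Real.pi * t) ^ 2) ^ D := by
  induction D with
  | zero => exact ⟨{0}, _, by simpa using TP.one⟩
  | succ D ih =>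
    obtain ⟨T, x, h⟩ := ih
    obtain ⟨T', x', h'⟩ := h.mul_cos
    refine ⟨T', x', ?_⟩
    have e : (fun t => (Real.cos (Real.pi * t) ^ 2) ^ (D + 1))
        = fun t => Real.cos (Real.pi * t) ^ 2 * (Real.cos (Real.pi * t) ^ 2) ^ D := by
      funext t
      ring
    rw [e]
    exact h'

theorem cos_sq_le {t : ℝ} (h0 : 0 ≤ t) (h1 : t ≤ 1 / 2) :
    Real.cos (Real.pi * t) ^ 2 ≤ Real.exp (-(4 * t ^ 2)) := by
  have hpi := Real.pi_pos
  have h2 : 2 * t ≤ Real.sin (Real.pi * t) := by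
    have h := Real.mul_le_sin (x := Real.pi * t) (by positivity) (by nlinarith)
    have e : 2 / Real.pi * (Real.pi * t) = 2 * t := by field_simp
    linarith
  have h3 := Real.sin_sq_add_cos_sq (Real.pi * t)
  have h4 := Real.add_one_le_exp (-(4 * t ^ 2))
  nlinarith

theorem cos_sq_le' {t : ℝ} (h0 : 0 ≤ t) (h1 : t ≤ 1) :
    Real.cos (Real.pi * t) ^ 2 ≤ Real.exp (-(4 * t ^ 2)) ∨
      Real.cos (Real.pi * t) ^ 2 ≤ Real.exp (-(4 * (1 - t) ^ 2)) := by
  rcases le_total t (1 / 2) with h | h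
  · exact Or.inl (cos_sq_le h0 h)
  · right
    have h2 := cos_sq_le (t := 1 - t) (by linarith) (by linarith)
    have e : Real.cos (Real.pi * (1 - t)) = -Real.cos (Real.pi * t) := by
      rw [mul_sub, mul_one, Real.cos_pi_sub]
    rw [e, neg_sq] at h2
    exact h2

/-- The moments of the powers, upper bound. -/
theorem cos_int_le {a : ℝ} (ha : 0 < a) :
    ∫ t in Icc (0 : ℝ) 1, (Real.cos (Real.pi * t) ^ 2) ^ a ≤ Real.sqrt (Real.pi / a) := by
  have hg1 : Integrable fun t : ℝ => Real.exp (-(4 * a) * t ^ 2) :=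
    integrable_exp_neg_mul_sq (by positivity)
  have hg2 : Integrable fun t : ℝ => Real.exp (-(4 * a) * (1 - t) ^ 2) := by
    have := hg1.comp_sub_left 1
    exact this
  have i1 : ∫ t : ℝ, Real.exp (-(4 * a) * t ^ 2) = Real.sqrt (Real.pi / (4 * a)) :=
    integral_gaussian (4 * a)
  have i2 : ∫ t : ℝ, Real.exp (-(4 * a) * (1 - t) ^ 2) = Real.sqrt (Real.pi / (4 * a)) := by
    have := integral_sub_left_eq_self (fun t : ℝ => Real.exp (-(4 * a) * t ^ 2)) volume 1
    rw [← i1]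
    exact this
  have hs : Real.sqrt (Real.pi / a) = 2 * Real.sqrt (Real.pi / (4 * a)) := by
    have e : Real.pi / a = 2 ^ 2 * (Real.pi / (4 * a)) := by field_simp; ring
    rw [e, Real.sqrt_mul (by norm_num), Real.sqrt_sq (by norm_num)]
  have key : ∀ t ∈ Icc (0 : ℝ) 1, (Real.cos (Real.pi * t) ^ 2) ^ a
      ≤ Real.exp (-(4 * a) * t ^ 2) + Real.exp (-(4 * a) * (1 - t) ^ 2) := by
    intro t ht
    have hp1 := Real.exp_pos (-(4 * a) * t ^ 2)
    have hp2 := Real.exp_pos (-(4 * a) * (1 - t) ^ 2)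
    have hc0 : 0 ≤ Real.cos (Real.pi * t) ^ 2 := sq_nonneg _
    rcases cos_sq_le' ht.1 ht.2 with h | h
    · have h1 := Real.rpow_le_rpow hc0 h ha.le
      rw [← Real.exp_mul] at h1
      have e : -(4 * t ^ 2) * a = -(4 * a) * t ^ 2 := by ring
      rw [e] at h1
      linarith
    · have h1 := Real.rpow_le_rpow hc0 h ha.le
      rw [← Real.exp_mul] at h1
      have e : -(4 * (1 - t) ^ 2) * a = -(4 * a) * (1 - t) ^ 2 := by ring
      rw [e] at h1
      linarith
  have hcont : Continuous fun t : ℝ => (Real.cos (Real.pi * t) ^ 2) ^ a := by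
    refine Continuous.rpow_const (by fun_prop) fun t => Or.inr ha.le
  calc ∫ t in Icc (0 : ℝ) 1, (Real.cos (Real.pi * t) ^ 2) ^ a
      ≤ ∫ t in Icc (0 : ℝ) 1, (Real.exp (-(4 * a) * t ^ 2) + Real.exp (-(4 * a) * (1 - t) ^ 2)) :=
        setIntegral_mono_on (hcont.continuousOn.integrableOn_compact isCompact_Icc)
          (hg1.add hg2).integrableOn measurableSet_Icc key
    _ ≤ ∫ t : ℝ, (Real.exp (-(4 * a) * t ^ 2) + Real.exp (-(4 * a) * (1 - t) ^ 2)) :=
        setIntegral_le_integral (hg1.add hg2) (Eventually.of_forall fun t => by positivity)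
    _ = Real.sqrt (Real.pi / a) := by
        rw [integral_add hg1 hg2, i1, i2, hs]
        ring

/-- The moments of the powers, lower bound. -/
theorem le_cos_int {D : ℕ} (hD : 0 < D) :
    1 / (4 * Real.pi * Real.sqrt D)
      ≤ ∫ t in Icc (0 : ℝ) 1, ((Real.cos (Real.pi * t) ^ 2) ^ D) ^ 2 := by
  have hpi := Real.pi_pos
  have hDr : (0 : ℝ) < D := by exact_mod_cast hD
  have hs : 0 < Real.sqrt D := Real.sqrt_pos.2 hDr
  have hs2 : Real.sqrt D ^ 2 = D := Real.sq_sqrt hDr.le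
  set δ : ℝ := 1 / (2 * Real.pi * Real.sqrt D) with hδ
  have hδ0 : 0 < δ := by positivity
  have hδ1 : δ ≤ 1 := by
    rw [hδ, div_le_one (by positivity)]
    have h1 : 1 ≤ Real.sqrt D := by
      rw [Real.one_le_sqrt]
      exact_mod_cast hD
    have h2 := Real.pi_gt_three
    nlinarith
  have key : ∀ t ∈ Icc (0 : ℝ) δ, 1 / 2 ≤ ((Real.cos (Real.pi * t) ^ 2) ^ D) ^ 2 := by
    intro t ht
    have h1 : Real.sin (Real.pi * t) ^ 2 ≤ (Real.pi * t) ^ 2 := by
      have := Real.sin_sq_le_sq (x := Real.pi * t)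
      exact this
    have h2 := Real.sin_sq_add_cos_sq (Real.pi * t)
    have h3 : (Real.pi * t) ^ 2 ≤ 1 / (4 * D) := by
      have h4 : Real.pi * t ≤ Real.pi * δ := mul_le_mul_of_nonneg_left ht.2 hpi.le
      have h5 : Real.pi * δ = 1 / (2 * Real.sqrt D) := by rw [hδ]; field_simp
      rw [h5] at h4
      have h6 : 0 ≤ Real.pi * t := mul_nonneg hpi.le ht.1
      calc (Real.pi * t) ^ 2 ≤ (1 / (2 * Real.sqrt D)) ^ 2 := pow_le_pow_left₀ h6 h4 2
        _ = 1 / (4 * D) := by
          rw [div_pow, mul_pow, hs2]; norm_num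
    have h7 : 1 + -(1 / (4 * (D : ℝ))) ≤ Real.cos (Real.pi * t) ^ 2 := by linarith
    have h8 : (1 : ℝ) / (4 * D) ≤ 1 := by
      rw [div_le_one (by positivity)]
      have : (1 : ℝ) ≤ D := by exact_mod_cast hD
      linarith
    have h9 := one_add_mul_le_pow (a := -(1 / (4 * (D : ℝ)))) (by linarith) (D * 2)
    rw [← pow_mul]
    calc (1 / 2 : ℝ) = 1 + ((D * 2 : ℕ) : ℝ) * -(1 / (4 * (D : ℝ))) := by
          push_cast
          field_simp
          ring
      _ ≤ (1 + -(1 / (4 * (D : ℝ)))) ^ (D * 2) := h9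
      _ ≤ _ := pow_le_pow_left₀ (by linarith) h7 _
  have hcont : Continuous fun t : ℝ => ((Real.cos (Real.pi * t) ^ 2) ^ D) ^ 2 := by fun_prop
  have hI : ∀ b : ℝ, IntegrableOn (fun t : ℝ => ((Real.cos (Real.pi * t) ^ 2) ^ D) ^ 2)
      (Icc (0 : ℝ) b) := fun b => hcont.continuousOn.integrableOn_compact isCompact_Icc
  have hIc : IntegrableOn (fun _ : ℝ => (1 / 2 : ℝ)) (Icc (0 : ℝ) δ) :=
    continuous_const.continuousOn.integrableOn_compact isCompact_Icc
  calc 1 / (4 * Real.pi * Real.sqrt D) = ∫ _t in Icc (0 : ℝ) δ, (1 / 2 : ℝ) := by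
        rw [setIntegral_const, Real.volume_real_Icc_of_le hδ0.le, hδ, smul_eq_mul]
        field_simp
        ring
    _ ≤ ∫ t in Icc (0 : ℝ) δ, ((Real.cos (Real.pi * t) ^ 2) ^ D) ^ 2 :=
        setIntegral_mono_on hIc (hI δ) measurableSet_Icc key
    _ ≤ ∫ t in Icc (0 : ℝ) 1, ((Real.cos (Real.pi * t) ^ 2) ^ D) ^ 2 :=
        setIntegral_mono_set (hI 1) (Eventually.of_forall fun t => by positivity)
          (Eventually.of_forall (Icc_subset_Icc le_rfl hδ1))

/-- The constants of the moments. -/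
noncomputable def KX (r : ℝ) : ℝ :=
  (4 * Real.pi) ^ (r / 2) * Real.sqrt (Real.pi / r) * 2 ^ |r - 2|

theorem KX_pos {r : ℝ} (hr : 0 < r) : 0 < KX r := by
  unfold KX
  have := Real.pi_pos
  positivity

/-- **Concentrated polynomials.** -/
theorem exists_X {M : ℝ} (hM : 1 ≤ M) : ∃ (T : Finset ℤ) (x : ℤ → ℝ) (X : ℝ → ℝ), TP T x X ∧
    (∀ t, 0 ≤ X t) ∧ ∑ k ∈ T, x k ^ 2 = 1 ∧
    ∀ r, 0 < r → ∫ t in Icc (0 : ℝ) 1, X t ^ r ≤ KX r * M ^ (r - 2) := by
  have hpi := Real.pi_pos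
  have hM0 : 0 < M := by linarith
  set D : ℕ := ⌈M ^ 4⌉₊ with hD
  have hM4 : 1 ≤ M ^ 4 := one_le_pow₀ hM
  have hD1 : M ^ 4 ≤ D := Nat.le_ceil _
  have hD2 : (D : ℝ) ≤ 2 * M ^ 4 := by
    have := (Nat.ceil_lt_add_one (by positivity : 0 ≤ M ^ 4)).le
    linarith
  have hD0 : 0 < D := by
    have : (0 : ℝ) < D := by linarith
    exact_mod_cast this
  have hDr : (0 : ℝ) < D := by exact_mod_cast hD0
  obtain ⟨T, x, h⟩ := TP.cos_pow D
  set A : ℝ := ∫ t in Icc (0 : ℝ) 1, ((Real.cos (Real.pi * t) ^ 2) ^ D) ^ 2 with hA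
  have hA1 : 1 / (4 * Real.pi * Real.sqrt D) ≤ A := le_cos_int hD0
  have hsD : 0 < Real.sqrt D := Real.sqrt_pos.2 hDr
  have hA0 : 0 < A := lt_of_lt_of_le (by positivity) hA1
  have hc0 : 0 < 1 / Real.sqrt A := by
    have := Real.sqrt_pos.2 hA0
    positivity
  refine ⟨T, _, _, h.smul (1 / Real.sqrt A), fun t => by positivity, ?_, fun r hr => ?_⟩
  · have h1 := h.sq_int
    rw [← hA] at h1
    have e : ∀ k ∈ T, (1 / Real.sqrt A * x k) ^ 2 = 1 / A * x k ^ 2 := by
      intro k _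
      rw [mul_pow, div_pow, Real.sq_sqrt hA0.le, one_pow]
    rw [Finset.sum_congr rfl e, ← Finset.mul_sum, ← h1]
    field_simp
  · have e : ∀ t ∈ Icc (0 : ℝ) 1, (1 / Real.sqrt A * (Real.cos (Real.pi * t) ^ 2) ^ D) ^ r
        = (1 / Real.sqrt A) ^ r * (Real.cos (Real.pi * t) ^ 2) ^ (D * r) := by
      intro t _
      rw [Real.mul_rpow hc0.le (by positivity), ← Real.rpow_natCast, ← Real.rpow_mul (sq_nonneg _)]
    rw [setIntegral_congr_fun measurableSet_Icc e, integral_const_mul]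
    have hb := cos_int_le (a := D * r) (by positivity)
    have hcr : (1 / Real.sqrt A) ^ r ≤ (4 * Real.pi * Real.sqrt D) ^ (r / 2) := by
      have e2 : (1 / Real.sqrt A) ^ r = (1 / A) ^ (r / 2) := by
        have e3 : 1 / Real.sqrt A = (1 / A) ^ (1 / 2 : ℝ) := by
          rw [← Real.sqrt_eq_rpow, Real.sqrt_div zero_le_one, Real.sqrt_one]
        rw [e3, ← Real.rpow_mul (by positivity)]
        congr 1
        ring
      rw [e2]
      refine Real.rpow_le_rpow (by positivity) ?_ (by positivity)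
      rw [div_le_iff₀ hA0]
      rw [div_le_iff₀ (by positivity)] at hA1
      linarith
    have e4 : (4 * Real.pi * Real.sqrt D) ^ (r / 2) * Real.sqrt (Real.pi / (D * r))
        = (4 * Real.pi) ^ (r / 2) * Real.sqrt (Real.pi / r) * (D : ℝ) ^ ((r - 2) / 4) := by
      rw [Real.mul_rpow (by positivity) hsD.le]
      have e5 : Real.pi / (D * r) = (Real.pi / r) / D := by field_simp
      rw [e5, Real.sqrt_div (by positivity)]
      have e6 : Real.sqrt D ^ (r / 2) / Real.sqrt D = (D : ℝ) ^ ((r - 2) / 4) := by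
        rw [Real.sqrt_eq_rpow, ← Real.rpow_mul hDr.le, ← Real.rpow_sub hDr]
        congr 1
        ring
      rw [← e6]
      ring
    have e7 : (D : ℝ) ^ ((r - 2) / 4) ≤ 2 ^ |r - 2| * M ^ (r - 2) := by
      have e8 : (M ^ 4) ^ ((r - 2) / 4) = M ^ (r - 2) := by
        rw [← Real.rpow_natCast, ← Real.rpow_mul hM0.le]
        congr 1
        push_cast
        ring
      rcases le_total 2 r with h2 | h2
      · have h3 : 0 ≤ (r - 2) / 4 := by linarith
        calc (D : ℝ) ^ ((r - 2) / 4) ≤ (2 * M ^ 4) ^ ((r - 2) / 4) :=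
              Real.rpow_le_rpow hDr.le hD2 h3
          _ = 2 ^ ((r - 2) / 4) * M ^ (r - 2) := by
              rw [Real.mul_rpow (by norm_num) (by positivity), e8]
          _ ≤ 2 ^ |r - 2| * M ^ (r - 2) := by
              refine mul_le_mul_of_nonneg_right ?_ (by positivity)
              refine Real.rpow_le_rpow_of_exponent_le (by norm_num) ?_
              rw [abs_of_nonneg (by linarith)]
              linarith
      · have h3 : (r - 2) / 4 ≤ 0 := by linarith
        calc (D : ℝ) ^ ((r - 2) / 4) ≤ (M ^ 4) ^ ((r - 2) / 4) :=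
              Real.rpow_le_rpow_of_nonpos (by positivity) hD1 h3
          _ = 1 * M ^ (r - 2) := by rw [e8, one_mul]
          _ ≤ 2 ^ |r - 2| * M ^ (r - 2) := by
              refine mul_le_mul_of_nonneg_right ?_ (by positivity)
              exact Real.one_le_rpow (by norm_num) (abs_nonneg _)
    have hK0 : 0 ≤ (4 * Real.pi) ^ (r / 2) * Real.sqrt (Real.pi / r) := by positivity
    calc (1 / Real.sqrt A) ^ r
          * ∫ t in Icc (0 : ℝ) 1, (Real.cos (Real.pi * t) ^ 2) ^ (D * r)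
        ≤ (4 * Real.pi * Real.sqrt D) ^ (r / 2) * Real.sqrt (Real.pi / (D * r)) := by
          refine mul_le_mul hcr hb ?_ (by positivity)
          exact setIntegral_nonneg measurableSet_Icc fun t _ => by positivity
      _ = (4 * Real.pi) ^ (r / 2) * Real.sqrt (Real.pi / r) * (D : ℝ) ^ ((r - 2) / 4) := e4
      _ ≤ (4 * Real.pi) ^ (r / 2) * Real.sqrt (Real.pi / r) * (2 ^ |r - 2| * M ^ (r - 2)) :=
          mul_le_mul_of_nonneg_left e7 hK0
      _ = KX r * M ^ (r - 2) := by unfold KX; ring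

end Pool.Agent.Run7.h980.WS
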