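import Pool.Agent.Run7.h782.WS.Defs
import Pool.Agent.Run7.h969.GG.Unit

/-!
Interaction of two translates of a profile.
-/

set_option autoImplicit false

open MeasureTheory Set Filter Topology
open scoped ContDiff ComplexConjugate NNReal

namespace Pool.Agent.Run7.h980.WS

open H459R3.NS Pool.Agent.Run7.h782 Pool.Agent.Run7.h782.GD Pool.Agent.Run7.h782.GS
open Pool.Agent.Run7.h969.GG Pool.Agent.Run7.h782.WS

theorem sh_zero (s : Cf) : sh 0 s = s := by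
  funext k
  rw [sh, sub_zero]

section
variable {s : Cf} {P : Finset K3} {m₁ m₂ : K3} {Λ ℓ : ℝ}

/-- The terms of the interaction with large total translation. -/
theorem term_gen (hP : ∀ p ∉ P, s p = 0) (hΛ : ∀ p ∈ P, len p ≤ Λ)
    (hn : ∀ p, kd (m₁ + m₂) (s p) = 0)
    (hm : ℓ ≤ len (m₁ + m₂)) (hℓ : 4 * Λ ≤ ℓ) (hℓ0 : 0 < ℓ) (k p : K3) :
    ‖kd k (sh m₁ s p) • sh m₂ s (k - p)‖
      ≤ 12 * Λ / ℓ * len k * (‖sh m₁ s p‖ * ‖sh m₂ s (k - p)‖) := by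
  by_cases h1 : sh m₁ s p = 0
  · rw [h1, kd_zero_right, zero_smul]
    simp
  by_cases h2 : sh m₂ s (k - p) = 0
  · rw [h2, smul_zero]
    simp
  have hp : len (p - m₁) ≤ Λ := supp_bd hP hΛ h1
  have hq : len (k - p - m₂) ≤ Λ := supp_bd hP hΛ h2
  have hk : k = (m₁ + m₂) + ((p - m₁) + (k - p - m₂)) := by abel
  have hl2 : len ((p - m₁) + (k - p - m₂)) ≤ 2 * Λ := (len_add_le _ _).trans (by linarith)
  have hlk : ℓ / 2 ≤ len k := by
    have h3 := len_add_le k (-((p - m₁) + (k - p - m₂)))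
    have h4 : k + -((p - m₁) + (k - p - m₂)) = m₁ + m₂ := by abel
    rw [h4, len_neg] at h3
    linarith
  have hkd : kd k (sh m₁ s p) = kd ((p - m₁) + (k - p - m₂)) (sh m₁ s p) := by
    have e : kd k (sh m₁ s p) = kd ((m₁ + m₂) + ((p - m₁) + (k - p - m₂))) (sh m₁ s p) := by
      rw [← hk]
    rw [e, kd_add_left]
    have : kd (m₁ + m₂) (sh m₁ s p) = 0 := hn _
    rw [this]
    ring
  rw [norm_smul, hkd]
  have h3 := norm_kd_le ((p - m₁) + (k - p - m₂)) (sh m₁ s p)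
  have hΛ0 : 0 ≤ Λ := (len_nonneg _).trans hp
  have h4 : 3 * len ((p - m₁) + (k - p - m₂)) ≤ 12 * Λ / ℓ * len k := by
    rw [div_mul_eq_mul_div, le_div_iff₀ hℓ0]
    have h5 := len_nonneg ((p - m₁) + (k - p - m₂))
    nlinarith
  have h6 := norm_nonneg (sh m₁ s p)
  have h7 := norm_nonneg (sh m₂ s (k - p))
  calc ‖kd (p - m₁ + (k - p - m₂)) (sh m₁ s p)‖ * ‖sh m₂ s (k - p)‖
      ≤ (3 * len ((p - m₁) + (k - p - m₂)) * ‖sh m₁ s p‖) * ‖sh m₂ s (k - p)‖ :=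
        mul_le_mul_of_nonneg_right h3 h7
    _ = 3 * len ((p - m₁) + (k - p - m₂)) * (‖sh m₁ s p‖ * ‖sh m₂ s (k - p)‖) := by ring
    _ ≤ _ := mul_le_mul_of_nonneg_right h4 (mul_nonneg h6 h7)

theorem nl_gen (hP : ∀ p ∉ P, s p = 0) (hΛ : ∀ p ∈ P, len p ≤ Λ)
    (hn : ∀ p, kd (m₁ + m₂) (s p) = 0)
    (hm : ℓ ≤ len (m₁ + m₂)) (hℓ : 4 * Λ ≤ ℓ) (hℓ0 : 0 < ℓ) (hΛ0 : 0 ≤ Λ) (B : Finset K3) :
    ∑ k ∈ B, ‖nl (sh m₁ s) (sh m₂ s) k‖ / len k ≤ 96 * Real.pi * Λ / ℓ * (N0 s * N0 s) := by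
  have hpi := Real.pi_pos
  have hs : L1 s := L1.of_supp hP
  have hsh1 := L1.sh hs m₁
  have hsh2 := L1.sh hs m₂
  have hn1 : ∀ k, 0 ≤ ‖sh m₁ s k‖ := fun k => norm_nonneg _
  have hn2 : ∀ k, 0 ≤ ‖sh m₂ s k‖ := fun k => norm_nonneg _
  have key : ∀ k, ‖nl (sh m₁ s) (sh m₂ s) k‖ / len k
      ≤ 96 * Real.pi * Λ / ℓ * ∑' p, ‖sh m₁ s p‖ * ‖sh m₂ s (k - p)‖ := by
    intro k
    have c0 := summable_conv hn1 hn2 hsh1 hsh2 k
    have hc0 : 0 ≤ ∑' p, ‖sh m₁ s p‖ * ‖sh m₂ s (k - p)‖ :=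
      tsum_nonneg fun p => mul_nonneg (hn1 _) (hn2 _)
    by_cases hk : k = 0
    · subst hk
      rw [len_zero, div_zero]
      positivity
    rw [div_le_iff₀ (len_pos hk), nl, norm_smul]
    have e1 : ‖(2 * Real.pi * Complex.I : ℂ)‖ = 2 * Real.pi := by
      rw [norm_mul, norm_mul, Complex.norm_I, Complex.norm_real, Real.norm_of_nonneg hpi.le]
      norm_num
    rw [e1]
    have h1 : ‖∑' p, kd k (sh m₁ s p) • sh m₂ s (k - p)‖
        ≤ 12 * Λ / ℓ * len k * ∑' p, ‖sh m₁ s p‖ * ‖sh m₂ s (k - p)‖ := by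
      rw [← tsum_mul_left]
      exact tsum_of_norm_bounded (c0.mul_left _).hasSum fun p =>
        term_gen hP hΛ hn hm hℓ hℓ0 k p
    have h2 := norm_prj_le k (∑' p, kd k (sh m₁ s p) • sh m₂ s (k - p))
    calc 2 * Real.pi * ‖prj k (∑' p, kd k (sh m₁ s p) • sh m₂ s (k - p))‖
        ≤ 2 * Real.pi * (4 * (12 * Λ / ℓ * len k * ∑' p, ‖sh m₁ s p‖ * ‖sh m₂ s (k - p)‖)) := by
          refine mul_le_mul_of_nonneg_left (h2.trans ?_) (by positivity)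
          linarith
      _ = _ := by ring
  calc ∑ k ∈ B, ‖nl (sh m₁ s) (sh m₂ s) k‖ / len k
      ≤ ∑ k ∈ B, 96 * Real.pi * Λ / ℓ * ∑' p, ‖sh m₁ s p‖ * ‖sh m₂ s (k - p)‖ :=
        Finset.sum_le_sum fun k _ => key k
    _ = 96 * Real.pi * Λ / ℓ * ∑ k ∈ B, ∑' p, ‖sh m₁ s p‖ * ‖sh m₂ s (k - p)‖ := by
        rw [Finset.mul_sum]
    _ ≤ 96 * Real.pi * Λ / ℓ * (N0 s * N0 s) := by
        refine mul_le_mul_of_nonneg_left ?_ (by positivity)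
        have h3 := sum_conv_le hn1 hn2 hsh1 hsh2 B
        rw [← N0_eq, N0_sh, ← N0_eq, N0_sh] at h3
        exact h3

end

/-- The modulated profile: multiplication by `√(2/3) (1 + cos (2 π m · x))`. -/
noncomputable def md (m : K3) (s : Cf) : Cf :=
  ((Real.sqrt (2 / 3) : ℝ) : ℂ) • (s + (1 / 2 : ℂ) • sh m s + (1 / 2 : ℂ) • sh (-m) s)

theorem md_nl {s : Cf} (hs : L1 s) (m : K3) :
    nl (md m s) (md m s) - nl s s = (2 / 3 : ℂ) • ((1 / 2 : ℂ) • nl (sh 0 s) (sh m s)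
      + (1 / 2 : ℂ) • nl (sh 0 s) (sh (-m) s) + (1 / 2 : ℂ) • nl (sh m s) (sh 0 s)
      + (1 / 2 : ℂ) • nl (sh (-m) s) (sh 0 s) + (1 / 4 : ℂ) • nl (sh m s) (sh m s)
      + (1 / 4 : ℂ) • nl (sh (-m) s) (sh (-m) s)) := by
  have l1 := L1.sh hs m
  have l2 := L1.sh hs (-m)
  have l3 := l1.smul (1 / 2 : ℂ)
  have l4 := l2.smul (1 / 2 : ℂ)
  have l5 := hs.add l3
  have e1 : nl (sh (-m) s) (sh m s) = nl s s := by
    have := nl_sh_neg (-m) s s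
    rwa [neg_neg] at this
  have e2 := nl_sh_neg m s s
  have hc : ((Real.sqrt (2 / 3) : ℝ) : ℂ) * ((Real.sqrt (2 / 3) : ℝ) : ℂ) = 2 / 3 := by
    rw [← Complex.ofReal_mul, Real.mul_self_sqrt (by norm_num)]
    push_cast
    ring
  rw [md, nl_smul_left, nl_smul_right, smul_smul, hc, nl_add_left l5 l4 (l5.add l4),
    nl_add_left hs l3 (l5.add l4), nl_add_right hs l5 l4, nl_add_right l3 l5 l4,
    nl_add_right l4 l5 l4, nl_add_right hs hs l3, nl_add_right l3 hs l3, nl_add_right l4 hs l3]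
  simp only [nl_smul_left, nl_smul_right, e1, e2, sh_zero]
  module

end Pool.Agent.Run7.h980.WS
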